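import Pool.Agent.Helper18_TDE.Defs

/-!
# Expansion of the entries of `gm H` and its square
-/

set_option autoImplicit false
open Finset

universe u

namespace Pool.Agent.Helper18_TDE

variable {V : Type u} [Fintype V] [DecidableEq V] (H : SimpleGraph V) [DecidableRel H.Adj]

omit [Fintype V] in
theorem gm_eq (a z : V) : gm H a z = 1 + (if H.Adj a z then (1 : ℝ) else 0) + (if z = a then 2 else 0) := by
  unfold gm
  by_cases h : a = z
  · subst h
    simp
    norm_num
  · rw [if_neg h, if_neg (fun h' : z = a => h h'.symm)]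
    by_cases h2 : H.Adj a z
    · rw [if_pos h2, if_pos h2]; norm_num
    · rw [if_neg h2, if_neg h2]; norm_num

omit [Fintype V] in
theorem gm_symm (a b : V) : gm H a b = gm H b a := by
  unfold gm
  by_cases h : a = b
  · subst h; rfl
  · rw [if_neg h, if_neg (fun h' : b = a => h h'.symm)]
    by_cases h2 : H.Adj a b
    · rw [if_pos h2, if_pos h2.symm]
    · rw [if_neg h2, if_neg (fun h' => h2 h'.symm)]

theorem gm_sum (f : V → ℝ) (a : V) : ∑ z, gm H a z * f z =
    ∑ z, f z + ∑ z ∈ univ.filter (fun z => H.Adj a z), f z + 2 * f a := by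
  simp_rw [gm_eq H a, add_mul, one_mul, sum_add_distrib, ite_mul, zero_mul, one_mul]
  rw [sum_filter, Finset.sum_ite_eq' univ a (fun z => 2 * f z)]
  simp

theorem gm_row (a : V) : ∑ z, gm H a z = (Fintype.card V : ℝ) + dg H a + 2 := by
  have h := gm_sum H (fun _ => (1 : ℝ)) a
  simp only [mul_one, sum_const, card_univ, nsmul_eq_mul] at h
  rw [h]
  unfold dg
  ring

theorem gm_filter (a b : V) : ∑ z ∈ univ.filter (fun z => H.Adj a z), gm H z b =
    (dg H a : ℝ) + cn H a b + (if H.Adj a b then 2 else 0) := by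
  simp_rw [gm_symm H _ b, gm_eq H b, sum_add_distrib]
  rw [sum_const, nsmul_eq_mul, mul_one]
  have h1 : ∑ z ∈ univ.filter (fun z => H.Adj a z), (if H.Adj b z then (1 : ℝ) else 0) =
      cn H a b := by
    rw [← sum_filter, filter_filter, sum_const, nsmul_eq_mul, mul_one]
    rfl
  have h2 : ∑ z ∈ univ.filter (fun z => H.Adj a z), (if z = b then (2 : ℝ) else 0) =
      (if H.Adj a b then 2 else 0) := by
    rw [Finset.sum_ite_eq' _ b (fun _ => (2 : ℝ))]
    simp
  rw [h1, h2]
  rfl

theorem gm_sq (a b : V) : ∑ z, gm H a z * gm H z b =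
    (Fintype.card V : ℝ) + dg H b + 2 + ((dg H a : ℝ) + cn H a b + (if H.Adj a b then 2 else 0))
      + 2 * gm H a b := by
  rw [gm_sum H (fun z => gm H z b) a, gm_filter H a b]
  simp_rw [gm_symm H _ b]
  rw [gm_row H b]

omit [DecidableEq V] in
theorem cn_self (a : V) : cn H a a = dg H a := by
  unfold cn dg
  congr 1
  ext z
  simp

omit [DecidableEq V] in
theorem cn_symm (a b : V) : cn H a b = cn H b a := by
  unfold cn
  congr 1
  ext z
  simp [and_comm]

omit [DecidableEq V] in
theorem cn_le (a b : V) : cn H a b ≤ dg H a := by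
  unfold cn dg
  apply card_le_card
  intro z hz
  simp only [mem_filter, mem_univ, true_and] at hz ⊢
  exact hz.1

section
variable {H}
variable {m : ℕ} {x θ : ℝ} {v : V → ℝ} {y : Fin (m + 1) → V → ℝ}

theorem Dat.diag (D : Dat H m x θ v y) (a : V) :
    v a ^ 2 + 3 * θ = (Fintype.card V : ℝ) + 8 + 3 * dg H a := by
  have h := D.sq a a
  rw [gm_sq, cn_self, if_neg (H.irrefl)] at h
  have hg : gm H a a = 3 := by unfold gm; rw [if_pos rfl]
  rw [hg] at h
  nlinarith [h]

theorem Dat.adj (D : Dat H m x θ v y) (a b : V) (hab : H.Adj a b) :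
    v a * v b + 2 * θ = (Fintype.card V : ℝ) + 8 + dg H a + dg H b + cn H a b := by
  have h := D.sq a b
  rw [gm_sq, if_pos hab] at h
  have hg : gm H a b = 2 := by unfold gm; rw [if_neg hab.ne, if_pos hab]
  rw [hg] at h
  nlinarith [h]

theorem Dat.non (D : Dat H m x θ v y) (a b : V) (hne : a ≠ b) (hab : ¬ H.Adj a b) :
    v a * v b + θ = (Fintype.card V : ℝ) + 4 + dg H a + dg H b + cn H a b := by
  have h := D.sq a b
  rw [gm_sq, if_neg hab] at h
  have hg : gm H a b = 1 := by unfold gm; rw [if_neg hne, if_neg hab]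
  rw [hg] at h
  nlinarith [h]

theorem Dat.E1 (D : Dat H m x θ v y) (a : V) :
    ∑ z, v z + 2 * v a + ∑ z ∈ univ.filter (fun z => H.Adj a z), v z = x * v a := by
  rw [← D.eig a, gm_sum]
  ring

theorem Dat.E2 (D : Dat H m x θ v y) (a : V) :
    3 * ((∑ z, v z) * v a) = ∑ z, v z ^ 2 + 2 * v a ^ 2
      + ∑ z ∈ univ.filter (fun z => H.Adj a z), v z ^ 2
      + (2 * (Fintype.card V : ℝ) - 2) * ((Fintype.card V : ℝ) + dg H a + 2) := by
  have key : ∑ z, gm H a z * (∑ w, gm H z w) = θ * (∑ w, gm H a w) + v a * ∑ w, v w := by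
    simp_rw [mul_sum]
    rw [sum_comm, ← sum_add_distrib]
    apply sum_congr rfl
    intro w _
    exact D.sq a w
  have h3 : ∀ z, 3 * (∑ w, gm H z w) = v z ^ 2 + (3 * θ + 2 * (Fintype.card V : ℝ) - 2) := by
    intro z
    rw [gm_row]
    have := D.diag z
    linarith
  have h4 : ∑ z, gm H a z * (3 * (∑ w, gm H z w)) = 3 * (∑ z, gm H a z * (∑ w, gm H z w)) := by
    rw [mul_sum]
    apply sum_congr rfl
    intro z _
    ring
  rw [key] at h4
  simp_rw [h3, mul_add, sum_add_distrib] at h4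
  rw [gm_sum, ← sum_mul, gm_row] at h4
  linarith

theorem Dat.psd (D : Dat H m x θ v y) (W : Finset V) (hW : Clq H W) :
    (∑ z ∈ W, v z) ^ 2 ≤ (2 * (W.card : ℝ) ^ 2 + W.card) * (x - θ) := by
  have hx : 0 < x := lt_trans D.θ_pos D.θ_lt
  -- vectors
  set w : Fin (m + 1) → ℝ := fun i => ∑ a ∈ W, y i a with hw
  set p : Fin (m + 1) → ℝ := fun i => ∑ z, y i z * v z with hp
  have hww : ∑ i, w i ^ 2 = 2 * (W.card : ℝ) ^ 2 + W.card := by
    have h1 : ∑ i, w i ^ 2 = ∑ a ∈ W, ∑ b ∈ W, gm H a b := by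
      simp_rw [hw, pow_two, sum_mul_sum]
      rw [sum_comm]
      apply sum_congr rfl
      intro a _
      rw [sum_comm]
      apply sum_congr rfl
      intro b _
      exact D.gram a b
    rw [h1]
    have h2 : ∀ a ∈ W, ∑ b ∈ W, gm H a b = 2 * (W.card : ℝ) + 1 := by
      intro a ha
      have h3 : ∀ b ∈ W, gm H a b = 2 + (if a = b then (1 : ℝ) else 0) := by
        intro b hb
        unfold gm
        by_cases hab : a = b
        · rw [if_pos hab, if_pos hab]; norm_num
        · rw [if_neg hab, if_pos (hW a ha b hb hab), if_neg hab]; norm_num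
      rw [sum_congr rfl h3, sum_add_distrib, sum_const, nsmul_eq_mul, Finset.sum_ite_eq, if_pos ha]
      ring
    rw [sum_congr rfl h2, sum_const, nsmul_eq_mul]
    ring
  have hpp : ∑ i, p i ^ 2 = x * (x * (x - θ)) := by
    have h1 : ∑ i, p i ^ 2 = ∑ a, (∑ b, gm H a b * v b) * v a := by
      simp_rw [hp, pow_two, sum_mul_sum]
      rw [sum_comm]
      apply sum_congr rfl
      intro a _
      rw [sum_comm, sum_mul]
      apply sum_congr rfl
      intro b _
      rw [← D.gram a b, sum_mul, sum_mul]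
      apply sum_congr rfl
      intro i _
      ring
    rw [h1, ← D.norm, mul_sum]
    apply sum_congr rfl
    intro a _
    rw [D.eig a]
    ring
  have hwp : ∑ i, w i * p i = x * ∑ a ∈ W, v a := by
    simp_rw [hw, hp, sum_mul_sum]
    rw [sum_comm, mul_sum]
    apply sum_congr rfl
    intro a _
    rw [← D.eig a, sum_comm]
    apply sum_congr rfl
    intro b _
    rw [← D.gram a b, sum_mul]
    apply sum_congr rfl
    intro i _
    ring
  have hcs := sum_mul_sq_le_sq_mul_sq univ w p
  rw [hwp, hww, hpp] at hcs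
  have h5 : x ^ 2 * (∑ z ∈ W, v z) ^ 2 ≤ x ^ 2 * ((2 * (W.card : ℝ) ^ 2 + W.card) * (x - θ)) := by
    nlinarith [hcs]
  exact le_of_mul_le_mul_left h5 (by positivity)

end

end Pool.Agent.Helper18_TDE
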