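import Pool.Agent.Helper18_TDE.CheckBSound

/-!
# Finite check, case A: the checker and its soundness
-/

set_option autoImplicit false
namespace Pool.Agent.Helper18_TDE

/-- loop over `A` -/
def faA (n x s p r dp dr ha hb Q lo cnt : ℕ) : Bool :=
  al cnt fun i => fo (Nat.add lo i) fun A =>
    imp (Nat.beq (Nat.mod A 2) (Nat.mod (Nat.div Q s) 2)) <|
    imp (Nat.ble (Nat.mul s (Nat.mul A A)) (Nat.mul n Q)) <|
    tst n x s Q A r dr hb <| tst n x s Q A p dp ha false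

/-- fixed `m` -/
def faM (n t s p r dp dr ha hb S m : ℕ) : Bool :=
  fo (Nat.sub (Nat.mul 3 n) (Nat.mul m t)) fun x =>
  imp (Nat.ble (Nat.add n 3) x) <|
  imp (Nat.ble (Nat.add (Nat.mul 3 x) (Nat.add n 2)) (Nat.add S (Nat.mul 3 t))) <|
  imp (Nat.ble (Nat.mul 2 (Nat.sub n 1)) (Nat.mul (Nat.add m 1) (Nat.add m 2))) <|
  fo (Nat.sub x t) fun X =>
  fo (Nat.mul x X) fun Q =>
  imp (Nat.beq (Nat.mod Q 3) (Nat.mod (Nat.mul n (Nat.add n 8)) 3)) <|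
  imp (Nat.beq (Nat.mod Q s) 0) <|
  imp (Nat.ble (Nat.add (Nat.mul n (Nat.mul s (Nat.mul p p))) 1) Q) <|
  imp (Nat.ble (Nat.add Q 1) (Nat.mul n (Nat.mul s (Nat.mul r r)))) <|
  mx (Nat.sub (Nat.mul (Nat.sub x 2) p) (Nat.mul dp r))
    (Nat.sub (Nat.mul (Nat.sub x 2) r) (Nat.mul dr r)) fun l1 =>
  mx l1 (Nat.div (Nat.add (Nat.add (Nat.mul (Nat.sub x 1) p) (Nat.mul ha p)) 1) 2) fun l2 =>
  mx l2 (Nat.div (Nat.add (Nat.add (Nat.mul (Nat.sub x 1) r) (Nat.mul hb p)) 1) 2) fun l3 =>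
  fo l3 fun lo =>
  mn (Nat.sub (Nat.mul (Nat.sub x 2) p) (Nat.mul dp p))
    (Nat.sub (Nat.mul (Nat.sub x 2) r) (Nat.mul dr p)) fun u1 =>
  mn u1 (Nat.div (Nat.add (Nat.mul (Nat.sub x 1) p) (Nat.mul ha r)) 2) fun u2 =>
  mn u2 (Nat.div (Nat.add (Nat.mul (Nat.sub x 1) r) (Nat.mul hb r)) 2) fun u3 =>
  fo (Nat.sub (Nat.add u3 1) lo) fun cnt =>
  faA n x s p r dp dr ha hb Q lo cnt

/-- fixed `t` -/
def faT (s p r Np S t : ℕ) : Bool :=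
  fo (Nat.sub Np (Nat.mul 3 t)) fun n =>
  fo (Nat.mul s (Nat.mul p p)) fun sp =>
  imp (Nat.ble (Nat.add n 8) (Nat.add sp (Nat.mul 3 t))) <|
  imp (Nat.ble (Nat.add (Nat.mul 4 n) 11) (Nat.add S (Nat.mul 3 t))) <|
  imp (Nat.beq (Nat.mod (Nat.add sp (Nat.mul 3 t)) 3) (Nat.mod (Nat.add n 8) 3)) <|
  fo (Nat.div (Nat.sub (Nat.add sp (Nat.mul 3 t)) (Nat.add n 8)) 3) fun dp =>
  fo (Nat.div (Nat.sub (Nat.add (Nat.mul s (Nat.mul r r)) (Nat.mul 3 t)) (Nat.add n 8)) 3) fun dr =>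
  imp (Nat.ble (Nat.add dr 2) n) <|
  fo (Nat.sub (Nat.sub n 1) dp) fun ha =>
  fo (Nat.sub (Nat.sub n 1) dr) fun hb =>
  fo (Nat.div (Nat.sub (Nat.mul 3 n) (Nat.add n 3)) t) fun m1 =>
  al (Nat.add m1 1) fun m => faM n t s p r dp dr ha hb S m

/-- fixed `c` -/
def faC (s p r Np S c : ℕ) : Bool :=
  imp (Nat.ble (Nat.add (Nat.add Np (Nat.mul s (Nat.mul p p))) (Nat.mul s (Nat.mul c c)))
    (Nat.add (Nat.mul s (Nat.mul 3 (Nat.mul p c))) 4)) <|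
  al 44 fun i => fo (Nat.add i 3) fun t => imp (Nat.ble (Nat.mul 3 t) Np) <| faT s p r Np S t

/-- fixed `s, p, r` -/
def faR (s p r : ℕ) : Bool :=
  imp (Nat.beq (Nat.mod (Nat.mul s (Nat.mul r r)) 3) (Nat.mod (Nat.mul s (Nat.mul p p)) 3)) <|
  imp (Nat.ble (Nat.mul s (Nat.mul r r)) (Nat.add (Nat.mul s (Nat.mul p r)) 36)) <|
  fo (Nat.mul s (Nat.add (Nat.mul p p) (Nat.add (Nat.mul p r) (Nat.mul r r)))) fun S =>
  al 37 fun k =>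
    imp (Nat.ble 32 (Nat.add (Nat.mul s (Nat.mul r r)) k)) <|
    fo (Nat.sub (Nat.add (Nat.mul s (Nat.mul r r)) k) 32) fun Np =>
    imp (Nat.ble Np (Nat.add (Nat.mul s (Nat.mul p r)) 4)) <|
    al (Nat.sub (Nat.add r 1) p) fun j => fo (Nat.add p j) fun c => faC s p r Np S c

/-- fixed `s` -/
def faS (s : ℕ) : Bool :=
  imp (sqf s) <|
  al 34 fun i => fo (Nat.add i 2) fun p =>
    al (Nat.sub p 1) fun j => fo (Nat.add (Nat.add p 1) j) fun r => faR s p r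

end Pool.Agent.Helper18_TDE
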