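import Pool.Agent.Helper18_TDE.Defs

/-!
# Finite check, case B: the checker and its soundness
-/

set_option autoImplicit false
namespace Pool.Agent.Helper18_TDE

/-! ### Basic combinators (evaluated lazily by the kernel) -/

/-- force evaluation of the argument -/
def fo (n : ℕ) (f : ℕ → Bool) : Bool := Nat.rec (f 0) (fun k _ => f (Nat.succ k)) n
/-- implication -/
def imp (b c : Bool) : Bool := Bool.rec true c b
/-- conjunction -/
def an (b c : Bool) : Bool := Bool.rec false c b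
/-- all `i < n` -/
def al (n : ℕ) (f : ℕ → Bool) : Bool := Nat.rec true (fun i ih => an (f i) ih) n
/-- maximum -/
def mx (a b : ℕ) (k : ℕ → Bool) : Bool := Bool.rec (k a) (k b) (Nat.ble a b)
/-- minimum -/
def mn (a b : ℕ) (k : ℕ → Bool) : Bool := Bool.rec (k b) (k a) (Nat.ble a b)
/-- search downward for the largest `c ≤ start` with `P c`, at most `fuel` steps -/
def dn (P : ℕ → Bool) (fuel start : ℕ) (k : ℕ → Bool) : Bool :=
  Nat.rec (motive := fun _ => ℕ → Bool) (fun _ => false)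
    (fun _ ih c => Bool.rec (fo (Nat.sub c 1) ih) (k c) (P c)) fuel start

theorem fo_eq (n : ℕ) (f : ℕ → Bool) : fo n f = f n := by cases n <;> rfl

theorem imp_iff (b c : Bool) : imp b c = true ↔ (b = true → c = true) := by
  cases b <;> simp [imp]

theorem an_iff (b c : Bool) : an b c = true ↔ (b = true ∧ c = true) := by
  cases b <;> simp [an]

theorem al_iff (n : ℕ) (f : ℕ → Bool) : al n f = true ↔ ∀ i < n, f i = true := by
  induction n with
  | zero => simp [al]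
  | succ n ih =>
    have : al (n + 1) f = an (f n) (al n f) := rfl
    rw [this, an_iff, ih]
    constructor
    · rintro ⟨h1, h2⟩ i hi
      rcases Nat.lt_succ_iff_lt_or_eq.1 hi with h | rfl
      · exact h2 i h
      · exact h1
    · intro h
      exact ⟨h n (Nat.lt_succ_self n), fun i hi => h i (Nat.lt_succ_of_lt hi)⟩

theorem mx_eq (a b : ℕ) (k : ℕ → Bool) : mx a b k = k (max a b) := by
  unfold mx
  cases h : Nat.ble a b with
  | false =>
    have : ¬ a ≤ b := fun hab => by rw [Nat.ble_eq_true_of_le hab] at h; cases h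
    rw [max_eq_left (by omega)]
  | true => rw [max_eq_right (Nat.le_of_ble_eq_true h)]

theorem mn_eq (a b : ℕ) (k : ℕ → Bool) : mn a b k = k (min a b) := by
  unfold mn
  cases h : Nat.ble a b with
  | false =>
    have : ¬ a ≤ b := fun hab => by rw [Nat.ble_eq_true_of_le hab] at h; cases h
    rw [min_eq_right (by omega)]
  | true => rw [min_eq_left (Nat.le_of_ble_eq_true h)]

theorem dn_spec (P : ℕ → Bool) (fuel start : ℕ) (k : ℕ → Bool) (h : dn P fuel start k = true) :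
    ∃ c, c ≤ start ∧ P c = true ∧ (∀ c', c < c' → c' ≤ start → P c' = false) ∧ k c = true := by
  induction fuel generalizing start with
  | zero => simp [dn] at h
  | succ f ih =>
    have h' : dn P (f + 1) start k =
        Bool.rec (fo (Nat.sub start 1) (fun c => dn P f c k)) (k start) (P start) := rfl
    rw [h'] at h
    cases hP : P start with
    | true =>
      rw [hP] at h
      exact ⟨start, le_rfl, hP, fun c' h1 h2 => absurd h1 (by omega), h⟩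
    | false =>
      rw [hP] at h
      have h2 : fo (Nat.sub start 1) (fun c => dn P f c k) = true := h
      rw [fo_eq] at h2
      obtain ⟨c, hc, hPc, hall, hk⟩ := ih _ h2
      have hc' : c ≤ start - 1 := hc
      refine ⟨c, by omega, hPc, ?_, hk⟩
      intro c' h3 h4
      rcases Nat.lt_or_ge c' start with h5 | h5
      · exact hall c' h3 (by show c' ≤ start - 1; omega)
      · have : c' = start := by omega
        rw [this]; exact hP

/-! ### The checker -/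

/-- squarefree test up to 31 -/
def sqf (s : ℕ) : Bool :=
  al 30 fun i => imp (Nat.beq (Nat.mod s (Nat.mul (Nat.add i 2) (Nat.add i 2))) 0) false

/-- Cauchy-Schwarz test: `true` if infeasible or `c` -/
def tst (n x s Q A a d h : ℕ) (c : Bool) : Bool :=
  fo (Nat.sub (Nat.mul (Nat.sub x 2) a) A) fun S1 =>
  fo (Nat.sub (Nat.mul 2 A) (Nat.mul (Nat.sub x 1) a)) fun T1 =>
  fo (Nat.mul s (Nat.mul a a)) fun sa =>
  fo (Nat.mul 3 (Nat.mul s (Nat.mul A a))) fun E =>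
  fo (Nat.add (Nat.add (Nat.add Q (Nat.mul n (Nat.sub (Nat.mul 2 n) 2)))
    (Nat.mul 2 (Nat.add sa (Nat.sub (Nat.mul 2 n) 2)))) (Nat.mul (Nat.sub (Nat.mul 2 n) 2) d)) fun K =>
  imp (Nat.ble (Nat.add (Nat.mul s (Nat.mul S1 S1)) (Nat.mul d K)) (Nat.mul E d)) <|
  imp (Nat.ble (Nat.add (Nat.add (Nat.mul s (Nat.mul T1 T1)) (Nat.mul E h)) (Nat.mul h sa))
    (Nat.mul h (Nat.add Q K))) c

/-- loop over `A` -/
def ckA (n x s p r da ha db hb Q lo cnt : ℕ) : Bool :=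
  al cnt fun i => fo (Nat.add lo i) fun A =>
    imp (Nat.beq (Nat.mod A 2) (Nat.mod (Nat.div Q s) 2)) <|
    tst n x s Q A r db hb <| tst n x s Q A p da ha false

/-- fixed `m` -/
def ckM (n t s p r da ha db hb AL Am xhi m : ℕ) : Bool :=
  fo (Nat.sub (Nat.mul 3 n) (Nat.mul m t)) fun x =>
  imp (Nat.ble x xhi) <|
  imp (Nat.ble (Nat.mul 2 (Nat.sub n 1)) (Nat.mul (Nat.add m 1) (Nat.add m 2))) <|
  fo (Nat.sub x t) fun X =>
  fo (Nat.mul x X) fun Q =>
  imp (Nat.beq (Nat.mod Q 3) (Nat.mod (Nat.mul n (Nat.add n 8)) 3)) <|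
  imp (Nat.beq (Nat.mod Q s) 0) <|
  mn (Nat.add m 1) n fun w =>
  imp (Nat.ble Q (Nat.add (Nat.mul w (Nat.mul s (Nat.mul r r)))
    (Nat.mul (Nat.sub n w) (Nat.mul s (Nat.mul AL AL))))) <|
  fo (Nat.div (Nat.add (Nat.add (Nat.mul (Nat.sub x 1) r) (Nat.mul p hb)) 1) 2) fun l1 =>
  mx l1 (Nat.sub (Nat.mul (Nat.sub x 2) r) (Nat.mul db r)) fun l2 =>
  mx l2 (Nat.sub (Nat.mul (Nat.sub x 2) p) (Nat.mul da r)) fun l3 =>
  fo l3 fun lo =>
  fo (Nat.div (Nat.add (Nat.mul (Nat.sub x 1) r) (Nat.mul Am hb)) 2) fun h1 =>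
  mn h1 (Nat.mul (Nat.sub x 2) p) fun h2 =>
  fo (Nat.sub (Nat.add h2 1) lo) fun cnt =>
  ckA n x s p r da ha db hb Q lo cnt

/-- fixed `t` -/
def ckT (s p r Np AL Am t : ℕ) : Bool :=
  fo (Nat.sub Np (Nat.mul 3 t)) fun n =>
  imp (Nat.ble 5 n) <|
  fo (Nat.mul s (Nat.mul p p)) fun sp =>
  imp (Nat.ble (Nat.add n 8) (Nat.add sp (Nat.mul 3 t))) <|
  fo (Nat.div (Nat.sub (Nat.add sp (Nat.mul 3 t)) (Nat.add n 8)) 3) fun da =>
  fo (Nat.mul s (Nat.mul r r)) fun sr =>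
  fo (Nat.div (Nat.sub (Nat.add sr (Nat.mul 3 t)) (Nat.add n 8)) 3) fun db =>
  fo (Nat.sub (Nat.sub n 1) da) fun ha =>
  fo (Nat.sub (Nat.sub n 1) db) fun hb =>
  fo (Nat.sub (Nat.mul 2 p) r) fun e =>
  mx (Nat.add n 3) (Nat.add (Nat.div (Nat.add sr 2) 3) t) fun x1 =>
  mx x1 (Nat.div (Nat.add (Nat.sub (Nat.add (Nat.mul p hb) (Nat.mul 4 p)) r) (Nat.sub e 1)) e) fun x2 =>
  fo x2 fun xlo =>
  mn (Nat.add (Nat.div (Nat.sub (Nat.mul s (Nat.add (Nat.mul p p) (Nat.add (Nat.mul p r) (Nat.mul r r))))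
      (Nat.add n 2)) 3) t)
    (Nat.div (Nat.sub (Nat.add (Nat.add (Nat.mul Am hb) (Nat.mul 4 p)) (Nat.mul 2 (Nat.mul da r))) r) e)
    fun y1 =>
  mn y1 (Nat.add 2 (Nat.div (Nat.mul db r) (Nat.sub r p))) fun y2 =>
  fo y2 fun xhi =>
  imp (Nat.ble xlo xhi) <|
  fo (Nat.div (Nat.sub (Nat.mul 3 n) xlo) t) fun m1 =>
  imp (Nat.ble (Nat.mul 2 (Nat.sub n 1)) (Nat.mul (Nat.add m1 1) (Nat.add m1 2))) <|
  mn (Nat.add m1 1) n fun w =>
  imp (Nat.ble (Nat.mul xlo (Nat.sub xlo t)) (Nat.add (Nat.mul w sr)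
    (Nat.mul (Nat.sub n w) (Nat.mul s (Nat.mul AL AL))))) <|
  fo (Nat.div (Nat.add (Nat.sub (Nat.mul 3 n) xhi) (Nat.sub t 1)) t) fun m0 =>
  al (Nat.sub (Nat.add m1 1) m0) fun i => fo (Nat.add m0 i) fun m =>
    ckM n t s p r da ha db hb AL Am xhi m

/-- fixed `mu` -/
def ckMu (NN T s p r K mu : ℕ) : Bool :=
  fo (Nat.sub (Nat.add K 4) (Nat.mul 3 mu)) fun Np =>
  imp (Nat.ble 14 Np) <|
  fo (Nat.mul s (Nat.mul r r)) fun sr =>
  fo (Nat.mod (Nat.mul s (Nat.mul p p)) 3) fun sp3 =>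
  imp (Nat.ble (Nat.add Np 33) sr) <|
  imp (Nat.ble sr (Nat.add (Nat.mul 4 Np) 2)) <|
  dn (fun c => an (Nat.ble (Nat.mul s (Nat.mul c c)) (Nat.add Np 32))
    (Nat.beq (Nat.mod (Nat.mul s (Nat.mul c c)) 3) sp3)) r (Nat.sub r 1) fun AL =>
  dn (fun c => an (Nat.ble (Nat.mul s (Nat.mul 3 (Nat.mul c r)))
      (Nat.add (Nat.add (Nat.add Np 32) (Nat.mul s (Nat.mul c c))) sr))
    (Nat.beq (Nat.mod (Nat.mul s (Nat.mul c c)) 3) sp3)) r AL fun Am =>
  mx 3 (Nat.div (Nat.add (Nat.mul s (Nat.mul (Nat.sub r p) (Nat.sub (Nat.mul 2 p) r))) 17) 6) fun t1 =>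
  mx t1 (Nat.div (Nat.add (Nat.sub (Nat.add (Nat.mul 4 Np) 11)
    (Nat.mul s (Nat.add (Nat.mul p p) (Nat.add (Nat.mul p r) (Nat.mul r r))))) 14) 15) fun t2 =>
  mx t2 (Nat.div (Nat.sub (Nat.add Np 3) NN) 3) fun t3 =>
  fo t3 fun tlo =>
  mn T (Nat.div (Nat.sub (Nat.add (Nat.mul 4 Np) 2) sr) 15) fun thi =>
  al (Nat.sub (Nat.add thi 1) tlo) fun i => fo (Nat.add tlo i) fun t => ckT s p r Np AL Am t

/-- fixed `s, p, r` -/
def ckR (NN T s p r : ℕ) : Bool :=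
  imp (Nat.beq (Nat.mod (Nat.mul s (Nat.mul r r)) 3) (Nat.mod (Nat.mul s (Nat.mul p p)) 3)) <|
  fo (Nat.mul s (Nat.sub (Nat.mul 3 (Nat.mul p r)) (Nat.add (Nat.mul p p) (Nat.mul r r)))) fun K =>
  al 13 fun mu => ckMu NN T s p r K mu

/-- fixed `s` -/
def ckS (NN T s : ℕ) : Bool :=
  imp (sqf s) <|
  al 36 fun i => fo (Nat.add i 2) fun p =>
    imp (Nat.ble (Nat.mul s (Nat.mul p p)) (Nat.add NN (Nat.add (Nat.mul 3 T) 31))) <|
    al (Nat.sub p 1) fun j => fo (Nat.add (Nat.add p 1) j) fun r => ckR NN T s p r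

end Pool.Agent.Helper18_TDE
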