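import Pool.Agent.Helper18_TDE.CheckB

/-!
# Finite check, case B: soundness of the checker
-/

set_option autoImplicit false
namespace Pool.Agent.Helper18_TDE

theorem fo_elim {n : ℕ} {f : ℕ → Bool} (h : fo n f = true) (v : ℕ) (hv : v = n) : f v = true := by
  subst hv; rwa [fo_eq] at h

theorem imp_elim {b c : Bool} (h : imp b c = true) (hb : b = true) : c = true :=
  (imp_iff b c).1 h hb

theorem al_elim {n : ℕ} {f : ℕ → Bool} (h : al n f = true) (i : ℕ) (hi : i < n) : f i = true :=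
  (al_iff n f).1 h i hi

theorem mx_elim {a b : ℕ} {k : ℕ → Bool} (h : mx a b k = true) (v : ℕ) (hv : v = max a b) :
    k v = true := by
  subst hv; rwa [mx_eq] at h

theorem mn_elim {a b : ℕ} {k : ℕ → Bool} (h : mn a b k = true) (v : ℕ) (hv : v = min a b) :
    k v = true := by
  subst hv; rwa [mn_eq] at h

theorem ble_of {a b : ℕ} (h : a ≤ b) : Nat.ble a b = true := Nat.ble_eq_true_of_le h

theorem beq_of {a b : ℕ} (h : a = b) : Nat.beq a b = true := by
  subst h; exact Nat.beq_refl a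

theorem ceil_le {a e x : ℕ} (he : 0 < e) (h : a ≤ x * e) : (a + (e - 1)) / e ≤ x := by
  apply Nat.le_of_lt_succ
  rw [Nat.div_lt_iff_lt_mul he, Nat.succ_mul]
  omega

theorem tst_elim {n x s Q A a d h : ℕ} {c : Bool} (H : tst n x s Q A a d h c = true)
    (hcs : CS n x s Q A a d h) : c = true := by
  obtain ⟨h1, h2⟩ := hcs
  rw [pow_two] at h1 h2
  have H1 := fo_elim H _ rfl
  have H2 := fo_elim H1 _ rfl
  have H3 := fo_elim H2 _ rfl
  have H4 := fo_elim H3 _ rfl
  have H5 := fo_elim H4 _ rfl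
  have H6 := imp_elim H5 (ble_of h1)
  exact imp_elim H6 (ble_of h2)

theorem ckA_sound {n x s p r da ha db hb Q lo cnt A : ℕ}
    (H : ckA n x s p r da ha db hb Q lo cnt = true) (h1 : lo ≤ A) (h2 : A < lo + cnt)
    (par : A % 2 = (Q / s) % 2) (c1 : CS n x s Q A r db hb) (c2 : CS n x s Q A p da ha) : False := by
  have H1 := al_elim H (A - lo) (by omega)
  have H2 := fo_elim H1 A (by show A = lo + (A - lo); omega)
  have H3 := imp_elim H2 (beq_of par)
  have H4 := tst_elim H3 c1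
  have H5 := tst_elim H4 c2
  exact Bool.false_ne_true H5

theorem ckM_sound {n m t x s p r mu da db hb A ha AL Am xhi : ℕ}
    (F : FB n m t x s p r mu da db hb A) (hha : ha = n - 1 - da) (hxhi : x ≤ xhi)
    (hAL : ∀ c, s * (c * c) ≤ n + 3 * t + 32 → (s * (c * c)) % 3 = (s * (p * p)) % 3 → c ≤ AL)
    (hAm : ∀ c, p ≤ c → c < r → s * (c * c) ≤ n + 3 * t + 32 →
      (s * (c * c)) % 3 = (s * (p * p)) % 3 →
      s * (3 * (c * r)) ≤ n + 3 * t + 32 + s * (c * c) + s * (r * r) → c ≤ Am)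
    (H : ckM n t s p r da ha db hb AL Am xhi m = true) : False := by
  have H1 := fo_elim H x (by have := F.tr; show x = 3 * n - m * t; omega)
  have H2 := imp_elim H1 (ble_of hxhi)
  have H3 := imp_elim H2 (ble_of F.had)
  have H4 := fo_elim H3 (x - t) rfl
  have H5 := fo_elim H4 (x * (x - t)) rfl
  have H6 := imp_elim H5 (beq_of F.Qmod)
  have H7 := imp_elim H6 (beq_of (Nat.mod_eq_zero_of_dvd F.Qs))
  have H8 := mn_elim H7 (min (m + 1) n) rfl
  have H9 := imp_elim H8 (ble_of (F.clq AL hAL))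
  obtain ⟨l1, hl1⟩ : ∃ l1, l1 = ((x - 1) * r + p * hb + 1) / 2 := ⟨_, rfl⟩
  have H10 := fo_elim H9 l1 hl1
  obtain ⟨l2, hl2⟩ : ∃ l2, l2 = max l1 ((x - 2) * r - db * r) := ⟨_, rfl⟩
  have H11 := mx_elim H10 l2 hl2
  obtain ⟨l3, hl3⟩ : ∃ l3, l3 = max l2 ((x - 2) * p - da * r) := ⟨_, rfl⟩
  have H12 := mx_elim H11 l3 hl3
  have H13 := fo_elim H12 l3 rfl
  obtain ⟨h1, hh1⟩ : ∃ h1, h1 = ((x - 1) * r + Am * hb) / 2 := ⟨_, rfl⟩
  have H14 := fo_elim H13 h1 hh1
  obtain ⟨h2, hh2⟩ : ∃ h2, h2 = min h1 ((x - 2) * p) := ⟨_, rfl⟩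
  have H15 := mn_elim H14 h2 hh2
  have H16 := fo_elim H15 (h2 + 1 - l3) rfl
  have e1 := F.T1lo
  have e2 := F.S1b
  have e3 := F.S1w'
  have e4 := F.T1hi Am hAm
  have e5 := F.S1w
  have f1 : l3 ≤ A := by omega
  have f2 : A ≤ h2 := by omega
  exact ckA_sound H16 f1 (by omega) F.par F.CSb (by rw [hha]; exact F.CSw)

theorem clq_mono {w w' n a b : ℕ} (h : w ≤ w') (hn : w' ≤ n) (hab : b ≤ a) :
    w * a + (n - w) * b ≤ w' * a + (n - w') * b := by
  obtain ⟨d, rfl⟩ := Nat.exists_eq_add_of_le h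
  obtain ⟨e, rfl⟩ := Nat.exists_eq_add_of_le hn
  have h1 : w + d + e - w = d + e := by omega
  have h2 : w + d + e - (w + d) = e := by omega
  rw [h1, h2]
  nlinarith [Nat.mul_le_mul_left d hab]

theorem ckT_sound {n m t x s p r mu da db hb A AL Am : ℕ}
    (F : FB n m t x s p r mu da db hb A)
    (hAL : ∀ c, s * (c * c) ≤ n + 3 * t + 32 → (s * (c * c)) % 3 = (s * (p * p)) % 3 → c ≤ AL)
    (hALr : AL ≤ r)
    (hAm : ∀ c, p ≤ c → c < r → s * (c * c) ≤ n + 3 * t + 32 →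
      (s * (c * c)) % 3 = (s * (p * p)) % 3 →
      s * (3 * (c * r)) ≤ n + 3 * t + 32 + s * (c * c) + s * (r * r) → c ≤ Am)
    (H : ckT s p r (n + 3 * t) AL Am t = true) : False := by
  have g1 := F.high
  have g2 := F.hda
  have g3 := F.hdb
  have g4 := F.hhb
  have g5 := F.hb_pos
  have g6 := F.t3
  have g7 := F.tr
  have g8 := F.pr
  have g9 := F.r2
  have g10 := F.x_ge
  have H1 := fo_elim H n (by show n = n + 3 * t - 3 * t; omega)
  have H2 := imp_elim H1 (ble_of (by omega))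
  have H3 := fo_elim H2 (s * (p * p)) rfl
  have H4 := imp_elim H3 (ble_of (by show n + 8 ≤ s * (p * p) + 3 * t; omega))
  have H5 := fo_elim H4 da (by show da = (s * (p * p) + 3 * t - (n + 8)) / 3; omega)
  have H6 := fo_elim H5 (s * (r * r)) rfl
  have H7 := fo_elim H6 db (by show db = (s * (r * r) + 3 * t - (n + 8)) / 3; omega)
  have H8 := fo_elim H7 (n - 1 - da) rfl
  have H9 := fo_elim H8 hb (by show hb = n - 1 - db; omega)
  obtain ⟨e, he⟩ : ∃ e, e = 2 * p - r := ⟨_, rfl⟩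
  have H10 := fo_elim H9 e he
  have he0 : 0 < e := by omega
  obtain ⟨x1, hx1⟩ : ∃ x1, x1 = max (n + 3) ((s * (r * r) + 2) / 3 + t) := ⟨_, rfl⟩
  have H11 := mx_elim H10 x1 hx1
  obtain ⟨x2, hx2⟩ : ∃ x2, x2 = max x1 ((p * hb + 4 * p - r + (e - 1)) / e) := ⟨_, rfl⟩
  have H12 := mx_elim H11 x2 hx2
  have H13 := fo_elim H12 x2 rfl
  obtain ⟨y1, hy1⟩ : ∃ y1, y1 = min ((s * (p * p + (p * r + r * r)) - (n + 2)) / 3 + t)
    ((Am * hb + 4 * p + 2 * (da * r) - r) / e) := ⟨_, rfl⟩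
  have H14 := mn_elim H13 y1 hy1
  obtain ⟨y2, hy2⟩ : ∃ y2, y2 = min y1 (2 + db * r / (r - p)) := ⟨_, rfl⟩
  have H15 := mn_elim H14 y2 hy2
  have H16 := fo_elim H15 y2 rfl
  -- bounds on x
  have P1 := F.P1
  have C1 := F.C1
  have T1lo := F.T1lo
  have T1hi := F.T1hi Am hAm
  have S1w := F.S1w
  have S1w' := F.S1w'
  have S1b := F.S1b
  have hxe : x * e = 2 * (x * p) - x * r := by
    rw [he, Nat.mul_sub]; ring_nf
  have hxr : x * r ≤ 2 * (x * p) := by nlinarith
  have q1 : (x - 1) * r = x * r - r := by rw [Nat.sub_mul, Nat.one_mul]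
  have q2 : (x - 2) * p = x * p - 2 * p := by rw [Nat.sub_mul]
  have q3 : (x - 2) * r = x * r - 2 * r := by rw [Nat.sub_mul]
  have q4 : r ≤ x * r := Nat.le_mul_of_pos_left r (by omega)
  have q5 : 2 * p ≤ x * p := Nat.mul_le_mul_right p (by omega)
  have q6 : 2 * r ≤ x * r := Nat.mul_le_mul_right r (by omega)
  have k1 : x1 ≤ x := by omega
  have k2 : (p * hb + 4 * p - r + (e - 1)) / e ≤ x := ceil_le he0 (by omega)
  have k3 : x2 ≤ x := by omega
  have k4 : x ≤ (s * (p * p + (p * r + r * r)) - (n + 2)) / 3 + t := by omega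
  have k5 : x ≤ (Am * hb + 4 * p + 2 * (da * r) - r) / e :=
    (Nat.le_div_iff_mul_le he0).2 (by omega)
  have k6 : x ≤ y1 := by omega
  have k7 : x - 2 ≤ db * r / (r - p) := by
    rw [Nat.le_div_iff_mul_le (by omega), Nat.mul_sub]
    omega
  have k8 : x ≤ y2 := by omega
  have H17 := imp_elim H16 (ble_of (le_trans k3 k8))
  obtain ⟨m1, hm1⟩ : ∃ m1, m1 = (3 * n - x2) / t := ⟨_, rfl⟩
  have H18 := fo_elim H17 m1 hm1
  have k9 : m ≤ m1 := by
    rw [hm1, Nat.le_div_iff_mul_le (by omega)]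
    omega
  have had := F.had
  have k10 : (m + 1) * (m + 2) ≤ (m1 + 1) * (m1 + 2) := Nat.mul_le_mul (by omega) (by omega)
  have H19 := imp_elim H18 (ble_of (le_trans had k10))
  obtain ⟨w, hw⟩ : ∃ w, w = min (m1 + 1) n := ⟨_, rfl⟩
  have H20 := mn_elim H19 w hw
  have k11 : x2 * (x2 - t) ≤ w * (s * (r * r)) + (n - w) * (s * (AL * AL)) := by
    refine le_trans (Nat.mul_le_mul k3 (by omega : x2 - t ≤ x - t)) ?_
    refine le_trans (F.clq AL hAL) ?_
    exact clq_mono (by omega) (by omega) (Nat.mul_le_mul_left s (Nat.mul_le_mul hALr hALr))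
  have H21 := imp_elim H20 (ble_of k11)
  obtain ⟨m0, hm0⟩ : ∃ m0, m0 = (3 * n - y2 + (t - 1)) / t := ⟨_, rfl⟩
  have H22 := fo_elim H21 m0 hm0
  have k12 : m0 ≤ m := by
    rw [hm0]
    exact ceil_le (by omega) (by omega)
  have H23 := al_elim H22 (m - m0) (by show m - m0 < m1 + 1 - m0; omega)
  have H24 := fo_elim H23 m (by show m = m0 + (m - m0); omega)
  exact ckM_sound F rfl k8 hAL hAm H24

theorem ckMu_sound {n m t x s p r mu da db hb A K : ℕ}
    (F : FB n m t x s p r mu da db hb A)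
    (hK : K = s * (3 * (p * r) - (p * p + r * r)))
    (H : ckMu 1000 46 s p r K mu = true) : False := by
  have g0 := F.hK
  have g1 := F.high
  have g2 := F.hda
  have g3 := F.hdb
  have g4 := F.hhb
  have g5 := F.hb_pos
  have g6 := F.t3
  have g7 := F.tr
  have g8 := F.pr
  have g9 := F.r2
  have g10 := F.x_ge
  have g11 := F.n_lt
  have g12 := F.priv
  have g13 := F.C1
  have g14 := F.had
  have hK' : K = s * (3 * (p * r)) - (s * (p * p) + s * (r * r)) := by
    rw [hK, Nat.mul_sub, Nat.mul_add]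
  have H1 := fo_elim H (n + 3 * t) (by show n + 3 * t = K + 4 - 3 * mu; omega)
  have H2 := imp_elim H1 (ble_of (by omega))
  have H3 := fo_elim H2 (s * (r * r)) rfl
  have H4 := fo_elim H3 ((s * (p * p)) % 3) rfl
  have H5 := imp_elim H4 (ble_of (by show n + 3 * t + 33 ≤ s * (r * r); omega))
  have H6 := imp_elim H5 (ble_of (by show s * (r * r) ≤ 4 * (n + 3 * t) + 2; omega))
  obtain ⟨AL, hAL1, hAL2, hAL3, H7⟩ := dn_spec _ _ _ _ H6
  have hAL : ∀ c, s * (c * c) ≤ n + 3 * t + 32 → (s * (c * c)) % 3 = (s * (p * p)) % 3 →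
      c ≤ AL := by
    intro c hc1 hc2
    by_contra hcon
    have hcr : c < r := by
      by_contra h
      have : s * (r * r) ≤ s * (c * c) :=
        Nat.mul_le_mul_left s (Nat.mul_le_mul (by omega) (by omega))
      omega
    have := hAL3 c (by omega) (by show c ≤ r - 1; omega)
    have h2 : an (Nat.ble (s * (c * c)) (n + 3 * t + 32))
        (Nat.beq ((s * (c * c)) % 3) ((s * (p * p)) % 3)) = true :=
      (an_iff _ _).2 ⟨ble_of hc1, beq_of hc2⟩
    exact Bool.false_ne_true (this.symm.trans h2)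
  obtain ⟨Am, hAm1, hAm2, hAm3, H8⟩ := dn_spec _ _ _ _ H7
  have hAm : ∀ c, p ≤ c → c < r → s * (c * c) ≤ n + 3 * t + 32 →
      (s * (c * c)) % 3 = (s * (p * p)) % 3 →
      s * (3 * (c * r)) ≤ n + 3 * t + 32 + s * (c * c) + s * (r * r) → c ≤ Am := by
    intro c _ _ hc1 hc2 hc3
    by_contra hcon
    have := hAm3 c (by omega) (hAL c hc1 hc2)
    have h2 : an (Nat.ble (s * (3 * (c * r))) (n + 3 * t + 32 + s * (c * c) + s * (r * r)))
        (Nat.beq ((s * (c * c)) % 3) ((s * (p * p)) % 3)) = true :=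
      (an_iff _ _).2 ⟨ble_of hc3, beq_of hc2⟩
    exact Bool.false_ne_true (this.symm.trans h2)
  obtain ⟨t1, ht1⟩ : ∃ t1, t1 = max 3 ((s * ((r - p) * (2 * p - r)) + 17) / 6) := ⟨_, rfl⟩
  have H9 := mx_elim H8 t1 ht1
  obtain ⟨t2, ht2⟩ : ∃ t2, t2 = max t1 ((4 * (n + 3 * t) + 11 -
    s * (p * p + (p * r + r * r)) + 14) / 15) := ⟨_, rfl⟩
  have H10 := mx_elim H9 t2 ht2
  obtain ⟨t3, ht3⟩ : ∃ t3, t3 = max t2 ((n + 3 * t + 3 - 1000) / 3) := ⟨_, rfl⟩
  have H11 := mx_elim H10 t3 ht3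
  have H12 := fo_elim H11 t3 rfl
  obtain ⟨t4, ht4⟩ : ∃ t4, t4 = min 46 ((4 * (n + 3 * t) + 2 - s * (r * r)) / 15) := ⟨_, rfl⟩
  have H13 := mn_elim H12 t4 ht4
  have k1 : t3 ≤ t := by omega
  have k2 : t ≤ 46 := by
    by_contra hcon
    have hm : m * t ≤ 2 * n - 3 := by omega
    rcases Nat.lt_or_ge m 44 with h44 | h44
    · have h1 : (m + 1) * (m + 2) = m * m + 3 * m + 2 := by ring
      have h2 : m * 47 ≤ m * t := Nat.mul_le_mul_left m (by omega)
      have h3 : m * m ≤ m * 43 := Nat.mul_le_mul_left m (by omega)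
      omega
    · have h2 : 44 * 47 ≤ m * t := Nat.mul_le_mul h44 (by omega)
      omega
  have k3 : t ≤ t4 := by omega
  have H14 := al_elim H13 (t - t3) (by show t - t3 < t4 + 1 - t3; omega)
  have H15 := fo_elim H14 t (by show t = t3 + (t - t3); omega)
  have hALr : AL ≤ r := by
    have : AL ≤ r - 1 := hAL1
    omega
  exact ckT_sound F hAL hALr hAm H15

theorem ckR_sound {n m t x s p r mu da db hb A : ℕ}
    (F : FB n m t x s p r mu da db hb A)
    (H : ckR 1000 46 s p r = true) : False := by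
  have g2 := F.hda
  have g3 := F.hdb
  have g15 := F.mu_le
  have H1 := imp_elim H (beq_of (by
    show (s * (r * r)) % 3 = (s * (p * p)) % 3
    omega))
  have H2 := fo_elim H1 (s * (3 * (p * r) - (p * p + r * r))) rfl
  have H3 := al_elim H2 mu (by omega)
  exact ckMu_sound F rfl H3

theorem sqf_of {s : ℕ} (h : Squarefree s) : sqf s = true := by
  unfold sqf
  rw [al_iff]
  intro i _
  rw [imp_iff]
  intro hb
  exfalso
  have h1 : s % ((i + 2) * (i + 2)) = 0 := Nat.eq_of_beq_eq_true hb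
  have h2 := h (i + 2) (Nat.dvd_of_mod_eq_zero h1)
  rw [Nat.isUnit_iff] at h2
  omega

theorem sp_le {n m t x s p r mu da db hb A : ℕ} (F : FB n m t x s p r mu da db hb A) :
    s * (p * p) ≤ n + 3 * t + 32 := by
  have g0 := F.hK
  have g8 := F.pr
  have g9 := F.r2
  have g15 := F.mu_le
  obtain ⟨a, rfl⟩ := Nat.exists_eq_add_of_le (le_of_lt g8)
  obtain ⟨b, hb'⟩ := Nat.exists_eq_add_of_le (le_of_lt g9)
  have hp : p = a + b := by omega
  have : s * (3 * (p * (p + a))) = s * (p * p) + s * (p * p) + s * ((p + a) * (p + a))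
      + s * (a * b) := by
    rw [hp]; ring
  omega

theorem t_le {n m t x s p r mu da db hb A : ℕ} (F : FB n m t x s p r mu da db hb A) :
    t ≤ 46 := by
  have g7 := F.tr
  have g10 := F.x_ge
  have g11 := F.n_lt
  have g14 := F.had
  have g1 := F.high
  have g3 := F.hdb
  have g4 := F.hhb
  have g5 := F.hb_pos
  by_contra hcon
  have hm : m * t ≤ 2 * n - 3 := by omega
  rcases Nat.lt_or_ge m 44 with h44 | h44
  · have h1 : (m + 1) * (m + 2) = m * m + 3 * m + 2 := by ring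
    have h2 : m * 47 ≤ m * t := Nat.mul_le_mul_left m (by omega)
    have h3 : m * m ≤ m * 43 := Nat.mul_le_mul_left m (by omega)
    omega
  · have h2 : 44 * 47 ≤ m * t := Nat.mul_le_mul h44 (by omega)
    omega

theorem ckS_sound {n m t x s p r mu da db hb A : ℕ}
    (F : FB n m t x s p r mu da db hb A)
    (H : ckS 1000 46 s = true) : False := by
  have g8 := F.pr
  have g9 := F.r2
  have g11 := F.n_lt
  have hp := sp_le F
  have ht := t_le F
  have hs : 0 < s := Nat.pos_of_ne_zero F.sqf.ne_zero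
  have hpp : p * p ≤ s * (p * p) := Nat.le_mul_of_pos_left _ hs
  have hp37 : p < 38 := by
    by_contra h
    have : 38 * 38 ≤ p * p := Nat.mul_le_mul (by omega) (by omega)
    omega
  have H1 := imp_elim H (sqf_of F.sqf)
  have H2 := al_elim H1 (p - 2) (by omega)
  have H3 := fo_elim H2 p (by show p = p - 2 + 2; omega)
  have H4 := imp_elim H3 (ble_of (by show s * (p * p) ≤ 1000 + (3 * 46 + 31); omega))
  have H5 := al_elim H4 (r - (p + 1)) (by show r - (p + 1) < p - 1; omega)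
  have H6 := fo_elim H5 r (by show r = p + 1 + (r - (p + 1)); omega)
  exact ckR_sound F H6

theorem s_lt {n m t x s p r mu da db hb A : ℕ}
    (F : FB n m t x s p r mu da db hb A) : s < 293 := by
  have g8 := F.pr
  have g9 := F.r2
  have g11 := F.n_lt
  have hp := sp_le F
  have ht := t_le F
  have h4 : s * (2 * 2) ≤ s * (p * p) :=
    Nat.mul_le_mul_left s (Nat.mul_le_mul (by omega) (by omega))
  omega

end Pool.Agent.Helper18_TDE
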