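import Pool.Agent.Helper18_TDE.CheckA

/-! Kernel evaluation of the case A checker. -/

namespace Pool.Agent.Helper18_TDE

theorem ka : al 12 (fun i => fo (Nat.add i 1) fun s => faS s) = true := by decide +kernel

end Pool.Agent.Helper18_TDE
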