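import Pool.Agent.Helper18_TDE.CheckA
import Pool.Agent.Helper18_TDE.KA

/-!
# Module FINA: the finite check of case A
-/

set_option autoImplicit false
namespace Pool.Agent.Helper18_TDE

theorem faA_sound {n x s p r dp dr ha hb Q lo cnt A : ℕ}
    (H : faA n x s p r dp dr ha hb Q lo cnt = true) (h1 : lo ≤ A) (h2 : A < lo + cnt)
    (par : A % 2 = (Q / s) % 2) (hA2 : s * (A * A) ≤ n * Q)
    (c1 : CS n x s Q A r dr hb) (c2 : CS n x s Q A p dp ha) : False := by
  have H1 := al_elim H (A - lo) (by omega)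
  have H2 := fo_elim H1 A (by show A = lo + (A - lo); omega)
  have H3 := imp_elim H2 (beq_of par)
  have H3' := imp_elim H3 (ble_of hA2)
  have H4 := tst_elim H3' c1
  have H5 := tst_elim H4 c2
  exact Bool.false_ne_true H5

theorem faM_sound {n m t x s p r c dp dr A ha hb S : ℕ}
    (F : FA n m t x s p r c dp dr A) (hha : ha = n - 1 - dp) (hhb : hb = n - 1 - dr)
    (hS : S = s * (p * p + (p * r + r * r)))
    (H : faM n t s p r dp dr ha hb S m = true) : False := by
  have g1 := F.tr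
  have g2 := F.x_ge
  have g3 := F.C1
  have g4 := F.Qlo
  have g5 := F.Qhi
  have H1 := fo_elim H x (by show x = 3 * n - m * t; omega)
  have H2 := imp_elim H1 (ble_of g2)
  have H3 := imp_elim H2 (ble_of (by show 3 * x + (n + 2) ≤ S + 3 * t; omega))
  have H4 := imp_elim H3 (ble_of F.had)
  have H5 := fo_elim H4 (x - t) rfl
  have H6 := fo_elim H5 (x * (x - t)) rfl
  have H7 := imp_elim H6 (beq_of F.Qmod)
  have H8 := imp_elim H7 (beq_of (Nat.mod_eq_zero_of_dvd F.Qs))
  have H9 := imp_elim H8 (ble_of g4)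
  have H10 := imp_elim H9 (ble_of g5)
  obtain ⟨l1, hl1⟩ : ∃ l1, l1 = max ((x - 2) * p - dp * r) ((x - 2) * r - dr * r) := ⟨_, rfl⟩
  have H11 := mx_elim H10 l1 hl1
  obtain ⟨l2, hl2⟩ : ∃ l2, l2 = max l1 (((x - 1) * p + ha * p + 1) / 2) := ⟨_, rfl⟩
  have H12 := mx_elim H11 l2 hl2
  obtain ⟨l3, hl3⟩ : ∃ l3, l3 = max l2 (((x - 1) * r + hb * p + 1) / 2) := ⟨_, rfl⟩
  have H13 := mx_elim H12 l3 hl3
  have H14 := fo_elim H13 l3 rfl
  obtain ⟨u1, hu1⟩ : ∃ u1, u1 = min ((x - 2) * p - dp * p) ((x - 2) * r - dr * p) := ⟨_, rfl⟩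
  have H15 := mn_elim H14 u1 hu1
  obtain ⟨u2, hu2⟩ : ∃ u2, u2 = min u1 (((x - 1) * p + ha * r) / 2) := ⟨_, rfl⟩
  have H16 := mn_elim H15 u2 hu2
  obtain ⟨u3, hu3⟩ : ∃ u3, u3 = min u2 (((x - 1) * r + hb * r) / 2) := ⟨_, rfl⟩
  have H17 := mn_elim H16 u3 hu3
  have H18 := fo_elim H17 (u3 + 1 - l3) rfl
  have e1 := F.S1p
  have e2 := F.S1p'
  have e3 := F.S1r
  have e4 := F.S1r'
  have e5 := F.T1p
  have e6 := F.T1p'
  have e7 := F.T1r
  have e8 := F.T1r'
  rw [← hha] at e5 e6
  rw [← hhb] at e7 e8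
  have f1 : l3 ≤ A := by omega
  have f2 : A ≤ u3 := by omega
  exact faA_sound H18 f1 (by omega) F.par F.A2 (by rw [hhb]; exact F.CSr)
    (by rw [hha]; exact F.CSp)

theorem faT_sound {n m t x s p r c dp dr A S : ℕ}
    (F : FA n m t x s p r c dp dr A)
    (hS : S = s * (p * p + (p * r + r * r)))
    (H : faT s p r (n + 3 * t) S t = true) : False := by
  have g1 := F.tr
  have g2 := F.x_ge
  have g3 := F.C1
  have g4 := F.hdp
  have g5 := F.hdr
  have g6 := F.dr_lt
  have g7 := F.t3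
  rw [← hS] at g3
  have H1 := fo_elim H n (by show n = n + 3 * t - 3 * t; omega)
  have H2 := fo_elim H1 (s * (p * p)) rfl
  have H3 := imp_elim H2 (ble_of (by show n + 8 ≤ s * (p * p) + 3 * t; omega))
  have H4 := imp_elim H3 (ble_of (by show 4 * n + 11 ≤ S + 3 * t; omega))
  have H5 := imp_elim H4 (beq_of (by show (s * (p * p) + 3 * t) % 3 = (n + 8) % 3; omega))
  have H6 := fo_elim H5 dp (by show dp = (s * (p * p) + 3 * t - (n + 8)) / 3; omega)
  have H7 := fo_elim H6 dr (by show dr = (s * (r * r) + 3 * t - (n + 8)) / 3; omega)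
  have H8 := imp_elim H7 (ble_of g6)
  have H9 := fo_elim H8 (n - 1 - dp) rfl
  have H10 := fo_elim H9 (n - 1 - dr) rfl
  obtain ⟨m1, hm1⟩ : ∃ m1, m1 = (3 * n - (n + 3)) / t := ⟨_, rfl⟩
  have H11 := fo_elim H10 m1 hm1
  have k9 : m ≤ m1 := by
    rw [hm1, Nat.le_div_iff_mul_le (by omega)]
    omega
  have H12 := al_elim H11 m (by show m < m1 + 1; omega)
  exact faM_sound F rfl rfl hS H12

theorem faC_sound {n m t x s p r c dp dr A S : ℕ}
    (F : FA n m t x s p r c dp dr A)
    (hS : S = s * (p * p + (p * r + r * r)))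
    (H : faC s p r (n + 3 * t) S c = true) : False := by
  have g0 := F.n_lt
  have g1 := F.tr
  have g2 := F.x_ge
  have g3 := F.had
  have g4 := F.hdp
  have g5 := F.hdr
  have g6 := F.dr_lt
  have g7 := F.t3
  have g8 := F.hc
  have g9 := F.pr
  have hs : 0 < s := Nat.pos_of_ne_zero F.sqf.ne_zero
  have hprs : s * (p * p) < s * (r * r) :=
    Nat.mul_lt_mul_of_pos_left (Nat.mul_lt_mul'' g9 g9) hs
  have H1 := imp_elim H (ble_of g8)
  have k2 : t ≤ 46 := by
    by_contra hcon
    have hm : m * t ≤ 2 * n - 3 := by omega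
    rcases Nat.lt_or_ge m 44 with h44 | h44
    · have h1 : (m + 1) * (m + 2) = m * m + 3 * m + 2 := by ring
      have h2 : m * 47 ≤ m * t := Nat.mul_le_mul_left m (by omega)
      have h3 : m * m ≤ m * 43 := Nat.mul_le_mul_left m (by omega)
      omega
    · have h2 : 44 * 47 ≤ m * t := Nat.mul_le_mul h44 (by omega)
      omega
  have H2 := al_elim H1 (t - 3) (by omega)
  have H3 := fo_elim H2 t (by show t = t - 3 + 3; omega)
  have H4 := imp_elim H3 (ble_of (by show 3 * t ≤ n + 3 * t; omega))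
  exact faT_sound F hS H4

theorem faR_sound {n m t x s p r c dp dr A : ℕ}
    (F : FA n m t x s p r c dp dr A)
    (H : faR s p r = true) : False := by
  have g1 := F.low
  have g2 := F.hc
  have g4 := F.hdp
  have g5 := F.hdr
  have g6 := F.pc
  have g7 := F.cr
  have key : s * (3 * (p * c)) ≤ s * (p * r) + s * (p * p) + s * (c * c) := by
    rw [← Nat.mul_add, ← Nat.mul_add]
    apply Nat.mul_le_mul_left
    have h1 : p * c ≤ p * r := Nat.mul_le_mul_left p g7
    have h2 : 2 * (p * c) ≤ p * p + c * c := by nlinarith [sq_nonneg ((p : ℤ) - c)]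
    omega
  have H1 := imp_elim H (beq_of (by
    show (s * (r * r)) % 3 = (s * (p * p)) % 3
    omega))
  have H2 := imp_elim H1 (ble_of (by show s * (r * r) ≤ s * (p * r) + 36; omega))
  have H3 := fo_elim H2 (s * (p * p + (p * r + r * r))) rfl
  have hpr : s * (p * r) ≤ s * (r * r) :=
    Nat.mul_le_mul_left s (Nat.mul_le_mul_right r (le_of_lt F.pr))
  have H4 := al_elim H3 (n + 3 * t + 32 - s * (r * r)) (by omega)
  have H5 := imp_elim H4 (ble_of (by
    show 32 ≤ s * (r * r) + (n + 3 * t + 32 - s * (r * r)); omega))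
  have H6 := fo_elim H5 (n + 3 * t) (by
    show n + 3 * t = s * (r * r) + (n + 3 * t + 32 - s * (r * r)) - 32; omega)
  have H7 := imp_elim H6 (ble_of (by show n + 3 * t ≤ s * (p * r) + 4; omega))
  have H8 := al_elim H7 (c - p) (by show c - p < r + 1 - p; omega)
  have H9 := fo_elim H8 c (by show c = p + (c - p); omega)
  exact faC_sound F rfl H9

theorem finA : FinAStmt := by
  intro n m t x s p r c dp dr A F
  have g1 := F.low
  have g2 := F.hc
  have g6 := F.pc
  have g7 := F.cr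
  have g8 := F.pr
  have g9 := F.r2
  have hs : 0 < s := Nat.pos_of_ne_zero F.sqf.ne_zero
  have key : s * (3 * (p * c)) ≤ s * (p * r) + s * (p * p) + s * (c * c) := by
    rw [← Nat.mul_add, ← Nat.mul_add]
    apply Nat.mul_le_mul_left
    have h1 : p * c ≤ p * r := Nat.mul_le_mul_left p g7
    have h2 : 2 * (p * c) ≤ p * p + c * c := by nlinarith [sq_nonneg ((p : ℤ) - c)]
    omega
  have h1 : s * (r * r) ≤ s * (p * r) + 36 := by omega
  have h2 : s * (p * r) + s * r ≤ s * (r * r) := by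
    rw [← Nat.mul_add]
    apply Nat.mul_le_mul_left
    nlinarith
  have h3 : s * r ≤ 36 := by omega
  have h4 : s * 3 ≤ s * r := Nat.mul_le_mul_left s (by omega)
  have h5 : 1 * r ≤ s * r := Nat.mul_le_mul_right r hs
  have H1 := al_elim ka (s - 1) (by omega)
  have H2 := fo_elim H1 s (by show s = s - 1 + 1; omega)
  have H3 := imp_elim H2 (sqf_of F.sqf)
  have H4 := al_elim H3 (p - 2) (by omega)
  have H5 := fo_elim H4 p (by show p = p - 2 + 2; omega)
  have H6 := al_elim H5 (r - (p + 1)) (by show r - (p + 1) < p - 1; omega)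
  have H7 := fo_elim H6 r (by show r = p + 1 + (r - (p + 1)); omega)
  exact faR_sound F H7

end Pool.Agent.Helper18_TDE
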