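import Pool.Agent.Helper18_TDE.CheckB

/-! Kernel evaluation of the case B checker for `s = 1`. -/

namespace Pool.Agent.Helper18_TDE

theorem kb1 : ckS 1000 46 1 = true := by decide +kernel

end Pool.Agent.Helper18_TDE
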