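import Pool.Agent.Helper18_TDE.CheckB

/-! Kernel evaluation of the case B checker for `2 ≤ s < 293`. -/

namespace Pool.Agent.Helper18_TDE

theorem kb2 : al 291 (fun i => fo (Nat.add i 2) fun s => ckS 1000 46 s) = true := by
  decide +kernel

end Pool.Agent.Helper18_TDE
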