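import Pool.Agent.Helper18_TDE.CheckBSound
import Pool.Agent.Helper18_TDE.KB1
import Pool.Agent.Helper18_TDE.KB2

/-! Module FINB: the finite check of case B. -/

set_option autoImplicit false
namespace Pool.Agent.Helper18_TDE

theorem finB : FinBStmt := by
  intro n m t x s p r mu da db hb A F
  have hs : s ≠ 0 := F.sqf.ne_zero
  have hlt := s_lt F
  have key : ckS 1000 46 s = true := by
    rcases Nat.lt_or_ge s 2 with h | h
    · have : s = 1 := by omega
      rw [this]
      exact kb1
    · have H1 := al_elim kb2 (s - 2) (by omega)
      exact fo_elim H1 s (by show s = s - 2 + 2; omega)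
  exact ckS_sound F key

end Pool.Agent.Helper18_TDE
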