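import Pool.Agent.Helper18_TDE.Core
import Pool.Agent.Helper18_TDE.FinA
import Pool.Agent.Helper18_TDE.FinB

/-!
# Module CONST: the arithmetical core
-/

set_option autoImplicit false
set_option linter.unusedSectionVars false
open Finset

universe u

namespace Pool.Agent.Helper18_TDE

variable {V : Type u} [Fintype V] [DecidableEq V] {H : SimpleGraph V} [DecidableRel H.Adj]
variable {n m t x s : ℕ} {e : V → ℕ}

/-- bound of a sum over the other vertices from above -/
theorem TT_le (f : V → ℕ) (a : V) (L : ℕ) (h : ∀ z, z ≠ a → ¬ H.Adj a z → f z ≤ L) :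
    TT H f a ≤ L * hn H a := by
  unfold TT hn
  rw [mul_comm, ← smul_eq_mul, ← sum_const]
  apply sum_le_sum
  intro z hz
  simp only [mem_filter, mem_univ, true_and] at hz
  exact h z hz.1 hz.2

theorem le_TT (f : V → ℕ) (a : V) (L : ℕ) (h : ∀ z, z ≠ a → ¬ H.Adj a z → L ≤ f z) :
    L * hn H a ≤ TT H f a := by
  unfold TT hn
  rw [mul_comm, ← smul_eq_mul, ← sum_const]
  apply sum_le_sum
  intro z hz
  simp only [mem_filter, mem_univ, true_and] at hz
  exact h z hz.1 hz.2

theorem SS_le (f : V → ℕ) (a : V) (L : ℕ) (h : ∀ z, f z ≤ L) : SS H f a ≤ dg H a * L := by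
  unfold SS dg
  rw [← smul_eq_mul, ← sum_const]
  exact sum_le_sum (fun z _ => h z)

theorem le_SS (f : V → ℕ) (a : V) (L : ℕ) (h : ∀ z, L ≤ f z) : dg H a * L ≤ SS H f a := by
  unfold SS dg
  rw [← smul_eq_mul, ← sum_const]
  exact sum_le_sum (fun z _ => h z)

section
variable (I : IDat H n m t x s e)
include I

theorem IDat.clqBound (u : V) (p L : ℕ) (hmax : ∀ z, e z ≤ e u)
    (hp : (s * (p * p)) % 3 = (s * (e u * e u)) % 3)
    (high : n + 3 * t + 32 < s * (e u * e u))
    (hL : ∀ c, s * (c * c) ≤ n + 3 * t + 32 → (s * (c * c)) % 3 = (s * (p * p)) % 3 → c ≤ L) :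
    x * (x - t) ≤ min (m + 1) n * (s * (e u * e u)) + (n - min (m + 1) n) * (s * (L * L)) := by
  set r := e u with hr
  rcases le_total L r with hLr | hLr
  · set W : Finset V := univ.filter (fun z => n + 3 * t + 32 < s * (e z * e z)) with hW
    have hWc : W.card ≤ m + 1 := I.clq W I.W_clq
    have hWn : W.card ≤ n := by rw [← I.card]; exact card_le_univ W
    have h1 : x * (x - t) ≤ W.card * (s * (r * r)) + (n - W.card) * (s * (L * L)) := by
      rw [I.Q_eq, ← sum_filter_add_sum_filter_not univ (fun z => n + 3 * t + 32 < s * (e z * e z))]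
      apply Nat.add_le_add
      · have hk : W.card * (s * (r * r)) = ∑ _z ∈ W, s * (r * r) := by
          rw [sum_const, smul_eq_mul]
        rw [hk]
        apply sum_le_sum
        intro z _
        rw [pow_two]
        exact Nat.mul_le_mul_left s (Nat.mul_le_mul (hmax z) (hmax z))
      · have hc : (univ.filter (fun z => ¬ n + 3 * t + 32 < s * (e z * e z))).card =
            n - W.card := by
          have := card_filter_add_card_filter_not (s := (univ : Finset V))
            (fun z => n + 3 * t + 32 < s * (e z * e z))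
          rw [card_univ, I.card] at this
          rw [hW]
          omega
        have hk : (n - W.card) * (s * (L * L)) =
            ∑ _z ∈ univ.filter (fun z => ¬ n + 3 * t + 32 < s * (e z * e z)), s * (L * L) := by
          rw [sum_const, smul_eq_mul, hc]
        rw [hk]
        apply sum_le_sum
        intro z hz
        simp only [mem_filter, mem_univ, true_and, not_lt] at hz
        have hzL : e z ≤ L := hL (e z) hz (by rw [hp, hr]; exact I.mod3 z u)
        rw [pow_two]
        exact Nat.mul_le_mul_left s (Nat.mul_le_mul hzL hzL)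
    refine le_trans h1 (clq_mono ?_ (min_le_right _ _) ?_)
    · exact le_min hWc hWn
    · exact Nat.mul_le_mul_left s (Nat.mul_le_mul hLr hLr)
  · have h1 : x * (x - t) ≤ n * (s * (r * r)) := by
      rw [I.Q_eq, ← I.card, ← card_univ, ← smul_eq_mul, ← sum_const]
      apply sum_le_sum
      intro z _
      rw [pow_two]
      exact Nat.mul_le_mul_left s (Nat.mul_le_mul (hmax z) (hmax z))
    have h2 : (n - min (m + 1) n) * (s * (r * r)) ≤ (n - min (m + 1) n) * (s * (L * L)) :=
      Nat.mul_le_mul_left _ (Nat.mul_le_mul_left s (Nat.mul_le_mul hLr hLr))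
    have h3 : n * (s * (r * r)) = min (m + 1) n * (s * (r * r)) +
        (n - min (m + 1) n) * (s * (r * r)) := by
      rw [← Nat.add_mul]
      congr 1
      have := min_le_right (m + 1) n
      omega
    omega

theorem IDat.fb (hn1 : n < 1000) (u w a : V) (hmax : ∀ z, e z ≤ e u) (hmin0 : ∀ z, e a ≤ e z)
    (hnc : e a < e u) (hne : w ≠ u) (hab : ¬ H.Adj u w)
    (hmin : ∀ z, z ≠ u → ¬ H.Adj u z → e w ≤ e z)
    (high : n + 3 * t + 32 < s * (e u * e u)) :
    FB n m t x s (e w) (e u) (cn H w u) (dg H w) (dg H u) (hn H u) (∑ z, e z) := by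
  have hwu : ¬ H.Adj w u := fun h => hab h.symm
  have hnf := I.nonf w u hne hwu
  have hmu := I.mu w u hne hwu
  have hdw := I.dg' w
  have hdu := I.dg' u
  have hlt : e w < e u := by
    rcases Nat.lt_or_ge (e w) (e u) with h | h
    · exact h
    · have h1 : e w = e u := le_antisymm (hmax w) h
      rw [h1] at hnf
      have : s * (3 * (e u * e u)) = s * (e u * e u) + s * (e u * e u) + s * (e u * e u) := by ring
      omega
  have hlt2 := I.lt2 w u
  have hcu := I.cnt u
  have hcw := I.cnt w
  have hpw := I.hn_pos w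
  have hpu := I.hn_pos u
  have hSu := I.sum_S u
  have hTu := I.sum_T u
  have hSw := I.sum_S w
  have hSule := SS_le (H := H) e u (e u) hmax
  have hSwle := SS_le (H := H) e w (e u) hmax
  refine
    { n_lt := hn1
      t3 := I.t3
      mu_le := hmu
      hK := hnf
      pr := hlt
      r2 := hlt2
      sqf := I.sqf
      high := high
      hda := hdw
      hdb := hdu
      hhb := hcu
      hb_pos := hpu
      da_lt := by omega
      priv := ?_
      tr := I.tr
      x_ge := I.x_ge a hmin0 ⟨u, hnc⟩
      had := I.had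
      P1 := ?_
      C1 := ?_
      Qmod := I.Qmod
      Qs := I.Qs
      clq := fun L hL => I.clqBound u (e w) L hmax (I.mod3 w u) high hL
      T1lo := ?_
      T1hi := ?_
      S1b := by omega
      S1w := by omega
      S1w' := by omega
      par := I.par
      CSb := I.cs u
      CSw := ?_ }
  · -- priv
    have hcn := cn_le H w u
    obtain ⟨d, hd⟩ := Nat.exists_eq_add_of_le (le_of_lt hlt)
    obtain ⟨f, hf⟩ := Nat.exists_eq_add_of_le (le_of_lt hlt2)
    have e1 : e u - e w = d := by omega
    have e2 : 2 * e w - e u = f := by omega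
    have e3 : e w = d + f := by omega
    rw [e1, e2]
    have e4 : s * (3 * (e w * e u)) = s * (e w * e w) + s * (e w * e w) + s * (e u * e u)
        + s * (d * f) := by
      rw [hd, e3]; ring
    omega
  · -- P1
    have h := I.psd {u} (by
      intro a ha b hb hne
      rw [mem_singleton] at ha hb
      exact absurd (ha.trans hb.symm) hne)
    simp only [sum_singleton, card_singleton] at h
    rw [pow_two] at h
    omega
  · -- C1
    have h := I.c1 a u hmin0 hmax hnc
    have haw := hmin0 w
    have h2 : s * (e a * e a + (e a * e u + e u * e u)) ≤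
        s * (e w * e w + (e w * e u + e u * e u)) := by
      apply Nat.mul_le_mul_left
      have h3 : e a * e a ≤ e w * e w := Nat.mul_le_mul haw haw
      have h4 : e a * e u ≤ e w * e u := Nat.mul_le_mul_right _ haw
      omega
    omega
  · -- T1lo
    have h := le_TT (H := H) e u (e w) hmin
    omega
  · -- T1hi
    intro L hL
    have h := TT_le (H := H) e u L (by
      intro z hz hadj
      have hzu : ¬ H.Adj z u := fun h => hadj h.symm
      have hlow : s * (e z * e z) ≤ n + 3 * t + 32 := by
        by_contra hcon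
        push Not at hcon
        exact hzu (I.W_clq z (by simp [hcon]) u (by simp [high]) hz)
      have hzlt : e z < e u := by
        by_contra hcon
        have : s * (e u * e u) ≤ s * (e z * e z) :=
          Nat.mul_le_mul_left s (Nat.mul_le_mul (by omega) (by omega))
        omega
      have hnz := I.nonf z u hz hzu
      have hmz := I.mu z u hz hzu
      exact hL (e z) (hmin z hz hadj) hzlt hlow (I.mod3 z w) (by omega))
    omega
  · have h := I.cs w
    have : n - 1 - dg H w = hn H w := by omega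
    rw [this]
    exact h

theorem IDat.fa (hn1 : n < 1000) (a u c : V) (hmin : ∀ z, e a ≤ e z) (hmax : ∀ z, e z ≤ e u)
    (hnc : e a < e u) (hne : c ≠ a) (hab : ¬ H.Adj a c)
    (low : s * (e u * e u) ≤ n + 3 * t + 32) :
    FA n m t x s (e a) (e u) (e c) (dg H a) (dg H u) (∑ z, e z) := by
  have hnf := I.nonf a c hne.symm hab
  have hcu := I.cnt u
  have hca := I.cnt a
  have hpa := I.hn_pos a
  have hpu := I.hn_pos u
  have hSu := I.sum_S u
  have hTu := I.sum_T u
  have hSa := I.sum_S a
  have hTa := I.sum_T a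
  have b1 := SS_le (H := H) e u (e u) hmax
  have b2 := SS_le (H := H) e a (e u) hmax
  have b3 := le_SS (H := H) e u (e a) hmin
  have b4 := le_SS (H := H) e a (e a) hmin
  have b5 := TT_le (H := H) e u (e u) (fun z _ _ => hmax z)
  have b6 := TT_le (H := H) e a (e u) (fun z _ _ => hmax z)
  have b7 := le_TT (H := H) e u (e a) (fun z _ _ => hmin z)
  have b8 := le_TT (H := H) e a (e a) (fun z _ _ => hmin z)
  have k1 : n - 1 - dg H u = hn H u := by omega
  have k2 : n - 1 - dg H a = hn H a := by omega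
  rw [mul_comm] at b5 b6 b7 b8
  refine
    { n_lt := hn1
      t3 := I.t3
      pr := hnc
      r2 := I.lt2 a u
      sqf := I.sqf
      low := low
      pc := hmin c
      cr := hmax c
      hc := by omega
      hdp := I.dg' a
      hdr := I.dg' u
      dr_lt := by omega
      tr := I.tr
      x_ge := I.x_ge a hmin ⟨u, hnc⟩
      had := I.had
      C1 := I.c1 a u hmin hmax hnc
      Qmod := I.Qmod
      Qs := I.Qs
      Qlo := ?_
      Qhi := ?_
      S1p := by omega
      S1p' := by omega
      S1r := by omega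
      S1r' := by omega
      T1p := by rw [k2]; omega
      T1p' := by rw [k2]; omega
      T1r := by rw [k1]; omega
      T1r' := by rw [k1]; omega
      A2 := ?_
      par := I.par
      CSr := by rw [k1]; exact I.cs u
      CSp := by rw [k2]; exact I.cs a }
  · rw [I.Q_eq, ← I.card, ← card_univ, ← smul_eq_mul, ← sum_const]
    apply sum_lt_sum
    · intro z _
      rw [pow_two]
      exact Nat.mul_le_mul_left s (Nat.mul_le_mul (hmin z) (hmin z))
    · refine ⟨u, mem_univ u, ?_⟩
      rw [pow_two]
      exact Nat.mul_lt_mul_of_pos_left (Nat.mul_lt_mul'' hnc hnc) I.spos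
  · rw [I.Q_eq, ← I.card, ← card_univ, ← smul_eq_mul, ← sum_const]
    apply sum_lt_sum
    · intro z _
      rw [pow_two]
      exact Nat.mul_le_mul_left s (Nat.mul_le_mul (hmax z) (hmax z))
    · refine ⟨a, mem_univ a, ?_⟩
      rw [pow_two]
      exact Nat.mul_lt_mul_of_pos_left (Nat.mul_lt_mul'' hnc hnc) I.spos
  · rw [I.Q_eq, ← I.card, ← mul_sum, ← card_univ]
    have h : (∑ z, e z) ^ 2 ≤ (univ : Finset V).card * ∑ z, e z ^ 2 := sq_sum_le_card_mul_sum_sq
    calc s * ((∑ z, e z) * ∑ z, e z) = s * (∑ z, e z) ^ 2 := by rw [pow_two]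
      _ ≤ s * ((univ : Finset V).card * ∑ z, e z ^ 2) := Nat.mul_le_mul_left s h
      _ = (univ : Finset V).card * (s * ∑ z, e z ^ 2) := by ring

theorem IDat.pdat (a u : V) (hmin0 : ∀ z, e a ≤ e z) (hnc : e a < e u) :
    PDat H n m t x (fun z => Real.sqrt s * e z) := by
  have hspos : (0 : ℝ) < s := by exact_mod_cast I.spos
  have hsq : Real.sqrt s * Real.sqrt s = s := Real.mul_self_sqrt (le_of_lt hspos)
  have hsqp : 0 < Real.sqrt s := Real.sqrt_pos.2 hspos
  have hvv : ∀ a b, (Real.sqrt s * (e a : ℝ)) * (Real.sqrt s * e b) = s * (e a * e b) := by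
    intro a b
    calc Real.sqrt s * (e a : ℝ) * (Real.sqrt s * e b)
        = (Real.sqrt s * Real.sqrt s) * (e a * e b) := by ring
      _ = s * (e a * e b) := by rw [hsq]
  have hv2 : ∀ a, (Real.sqrt s * (e a : ℝ)) ^ 2 = s * (e a * e a) := by
    intro a
    rw [pow_two, hvv a a]
  have hxt : ((x - t : ℕ) : ℝ) = (x : ℝ) - t := Nat.cast_sub (le_of_lt I.tx)
  refine
    { card := I.card
      v_pos := fun z => mul_pos hsqp (by exact_mod_cast I.e_pos z)
      t3 := I.t3
      tr := I.tr
      x_ge := I.x_ge a hmin0 ⟨u, hnc⟩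
      lt2 := ?_
      non := ?_
      diag := ?_
      dg_le := ?_
      nb := I.nb
      c1 := ?_
      norm := ?_
      clq := I.clq
      had := I.had
      psd := ?_ }
  · intro a b
    have h : (e b : ℝ) < 2 * e a := by exact_mod_cast I.lt2 a b
    show Real.sqrt s * (e b : ℝ) < 2 * (Real.sqrt s * e a)
    have := mul_lt_mul_of_pos_left h hsqp
    linarith
  · intro a b hne hab
    have h := I.nonf a b hne hab
    have h2 := I.mu a b hne hab
    have h' : (s : ℝ) * (3 * (e a * e b)) + 4 = n + 3 * t + 3 * cn H a b + s * (e a * e a)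
        + s * (e b * e b) := by exact_mod_cast h
    have h2' : (cn H a b : ℝ) ≤ 12 := by exact_mod_cast h2
    have h3' : (0 : ℝ) ≤ cn H a b := by positivity
    have h4 : 3 * (Real.sqrt s * (e a : ℝ)) * (Real.sqrt s * e b) = 3 * (s * (e a * e b)) := by
      rw [mul_assoc, hvv a b]
    show (n : ℝ) + 3 * t - 4 ≤ 3 * (Real.sqrt s * (e a : ℝ)) * (Real.sqrt s * e b)
        - (Real.sqrt s * (e a : ℝ)) ^ 2 - (Real.sqrt s * (e b : ℝ)) ^ 2 ∧
      3 * (Real.sqrt s * (e a : ℝ)) * (Real.sqrt s * e b)
        - (Real.sqrt s * (e a : ℝ)) ^ 2 - (Real.sqrt s * (e b : ℝ)) ^ 2 ≤ (n : ℝ) + 3 * t + 32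
    rw [h4, hv2, hv2]
    constructor <;> linarith
  · intro a
    show (Real.sqrt s * (e a : ℝ)) ^ 2 = (n : ℝ) + 8 - 3 * t + 3 * dg H a
    have h := I.dg' a
    have h' : (s : ℝ) * (e a * e a) + 3 * t = n + 8 + 3 * dg H a := by exact_mod_cast h
    rw [hv2]; linarith
  · intro a
    have h := I.cnt a
    have h2 := I.hn_pos a
    omega
  · intro a b hmin hmax hlt
    have hmin' : ∀ z, e a ≤ e z := by
      intro z
      have h : Real.sqrt s * (e a : ℝ) ≤ Real.sqrt s * e z := hmin z
      have := le_of_mul_le_mul_left h hsqp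
      exact_mod_cast this
    have hmax' : ∀ z, e z ≤ e b := by
      intro z
      have h : Real.sqrt s * (e z : ℝ) ≤ Real.sqrt s * e b := hmax z
      have := le_of_mul_le_mul_left h hsqp
      exact_mod_cast this
    have hlt' : e a < e b := by
      have h : Real.sqrt s * (e a : ℝ) < Real.sqrt s * e b := hlt
      have := lt_of_mul_lt_mul_left h (le_of_lt hsqp)
      exact_mod_cast this
    have h := I.c1 a b hmin' hmax' hlt'
    have h' : (3 : ℝ) * x + n + 2 ≤ s * (e a * e a + (e a * e b + e b * e b)) + 3 * t := by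
      exact_mod_cast h
    show 3 * ((x : ℝ) - t) + n + 2 ≤ (Real.sqrt s * (e a : ℝ)) ^ 2
      + (Real.sqrt s * (e a : ℝ)) * (Real.sqrt s * e b) + (Real.sqrt s * (e b : ℝ)) ^ 2
    rw [hv2, hv2, hvv]
    linarith
  · have h := I.Q_eq
    have h' : (x : ℝ) * ((x - t : ℕ) : ℝ) = ∑ z, (s : ℝ) * (e z : ℝ) ^ 2 := by exact_mod_cast h
    rw [← hxt, h']
    apply sum_congr rfl
    intro z _
    show (Real.sqrt s * (e z : ℝ)) ^ 2 = _
    rw [hv2, pow_two]
  · intro W hW
    have h := I.psd W hW
    have h' : (s : ℝ) * (∑ z ∈ W, (e z : ℝ)) ^ 2 + (2 * (W.card : ℝ) ^ 2 + W.card) * t ≤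
        (2 * (W.card : ℝ) ^ 2 + W.card) * x := by exact_mod_cast h
    show (∑ z ∈ W, Real.sqrt s * (e z : ℝ)) ^ 2 ≤ (2 * (W.card : ℝ) ^ 2 + W.card) * ((x : ℝ) - t)
    rw [← mul_sum, mul_pow, pow_two (Real.sqrt s), hsq]
    linarith

end

/-- Module CONST from BIG. -/
theorem const_of (hBIG : BigStmt.{u}) : ConstStmt.{u} := by
  intro V _ _ H _ n m t x s e I
  by_contra hcon
  push Not at hcon
  obtain ⟨a1, b1, hab1⟩ := hcon
  obtain ⟨a, _, hmin⟩ := exists_min_image (univ : Finset V) e ⟨a1, mem_univ a1⟩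
  obtain ⟨u, _, hmax⟩ := exists_max_image (univ : Finset V) e ⟨a1, mem_univ a1⟩
  have hmin' : ∀ z, e a ≤ e z := fun z => hmin z (mem_univ z)
  have hmax' : ∀ z, e z ≤ e u := fun z => hmax z (mem_univ z)
  have hnc : e a < e u := by
    rcases Nat.lt_or_gt_of_ne hab1 with h | h
    · exact lt_of_le_of_lt (hmin' a1) (lt_of_lt_of_le h (hmax' b1))
    · exact lt_of_le_of_lt (hmin' b1) (lt_of_lt_of_le h (hmax' a1))
  rcases Nat.lt_or_ge n 1000 with hn1 | hn1
  · rcases Nat.lt_or_ge (n + 3 * t + 32) (s * (e u * e u)) with hh | hh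
    · -- case B
      obtain ⟨b0, hb0, hub0⟩ := I.nb u
      obtain ⟨⟨u', w⟩, hmem, hminp⟩ := exists_min_image
        ((univ : Finset (V × V)).filter
          (fun q => e q.1 = e u ∧ q.2 ≠ q.1 ∧ ¬ H.Adj q.1 q.2)) (fun q => e q.2)
        ⟨(u, b0), by simp [hb0, hub0]⟩
      simp only [mem_filter, mem_univ, true_and] at hmem
      obtain ⟨hu', hw1, hw2⟩ := hmem
      have hmax'' : ∀ z, e z ≤ e u' := fun z => by rw [hu']; exact hmax' z
      refine finB _ _ _ _ _ _ _ _ _ _ _ _
        (I.fb hn1 u' w a hmax'' hmin' (by rw [hu']; exact hnc) hw1 hw2 ?_ (by rw [hu']; exact hh))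
      intro z hz hadj
      exact hminp (u', z) (by simp [hu', hz, hadj])
    · -- case A
      obtain ⟨c, hc1, hc2⟩ := I.nb a
      exact finA _ _ _ _ _ _ _ _ _ _ _ (I.fa hn1 a u c hmin' hmax' hnc hc1 hc2 hh)
  · have hP := I.pdat a u hmin' hnc
    have h := hBIG V H n m t x _ hP hn1 a u
    have hspos : (0 : ℝ) < s := by exact_mod_cast I.spos
    have hsqp : 0 < Real.sqrt s := Real.sqrt_pos.2 hspos
    have h2 := mul_left_cancel₀ hsqp.ne' h
    have h3 : e a = e u := by exact_mod_cast h2
    omega

end Pool.Agent.Helper18_TDE
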