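import Pool.Agent.Helper18_TDE.Basic

/-!
# Consequences of the arithmetical data
-/

set_option autoImplicit false
open Finset

universe u

namespace Pool.Agent.Helper18_TDE

variable {V : Type u} [Fintype V] [DecidableEq V] {H : SimpleGraph V} [DecidableRel H.Adj]
variable {n m t x s : ℕ} {e : V → ℕ}

/-- sum over the neighbours -/
def SS (H : SimpleGraph V) [DecidableRel H.Adj] (f : V → ℕ) (a : V) : ℕ :=
  ∑ z ∈ univ.filter (fun z => H.Adj a z), f z

/-- sum over the other vertices -/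
def TT (H : SimpleGraph V) [DecidableRel H.Adj] (f : V → ℕ) (a : V) : ℕ :=
  ∑ z ∈ univ.filter (fun z => z ≠ a ∧ ¬ H.Adj a z), f z

/-- number of other vertices -/
def hn (H : SimpleGraph V) [DecidableRel H.Adj] (a : V) : ℕ :=
  (univ.filter (fun z => z ≠ a ∧ ¬ H.Adj a z)).card

theorem split_sum (f : V → ℕ) (a : V) : ∑ z, f z = f a + SS H f a + TT H f a := by
  unfold SS TT
  rw [← sum_filter_add_sum_filter_not univ (fun z => z = a) f]
  rw [filter_eq' univ a, if_pos (mem_univ a), sum_singleton]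
  rw [← sum_filter_add_sum_filter_not (univ.filter (fun z => ¬ z = a)) (fun z => H.Adj a z) f]
  rw [filter_filter, filter_filter, ← add_assoc]
  congr 2
  apply sum_congr _ (fun _ _ => rfl)
  ext z
  simp only [mem_filter, mem_univ, true_and]
  constructor
  · exact fun h => h.2
  · exact fun h => ⟨h.ne', h⟩

theorem count (a : V) : Fintype.card V = dg H a + 1 + hn H a := by
  have h := split_sum (H := H) (fun _ => 1) a
  unfold SS TT at h
  simp only [sum_const, card_univ, smul_eq_mul, mul_one] at h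
  unfold dg hn
  omega

set_option linter.unusedSectionVars false

section
variable (I : IDat H n m t x s e)
include I

theorem IDat.sum_S (a : V) : (x - 2) * e a = ∑ z, e z + SS H e a := by
  have h := I.E1 a
  unfold SS
  rw [Nat.sub_mul]
  omega

theorem IDat.sum_T (a : V) : 2 * ∑ z, e z = (x - 1) * e a + TT H e a := by
  have h := I.E1 a
  have h2 := split_sum (H := H) e a
  unfold SS at h2
  rw [Nat.sub_mul, Nat.one_mul]
  omega

theorem IDat.Q_eq : x * (x - t) = ∑ z, s * e z ^ 2 := by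
  have h := I.norm
  rw [Nat.mul_sub]
  omega

theorem IDat.cnt (a : V) : dg H a + 1 + hn H a = n := by
  rw [← I.card]; exact (count a).symm

theorem IDat.hn_pos (a : V) : 1 ≤ hn H a := by
  obtain ⟨b, hb, hab⟩ := I.nb a
  unfold hn
  apply card_pos.2
  exact ⟨b, by simp [hb, hab]⟩

theorem IDat.spos : 0 < s := Nat.pos_of_ne_zero I.sqf.ne_zero

theorem IDat.dg' (a : V) : s * (e a * e a) + 3 * t = n + 8 + 3 * dg H a := by
  rw [← pow_two]; exact I.diag a

theorem IDat.lt2 (a b : V) : e b < 2 * e a := by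
  have hApos : 0 < ∑ z, e z := sum_pos (fun z _ => I.e_pos z) ⟨a, mem_univ a⟩
  have e1 := I.sum_S a
  have e2 := I.sum_T b
  have h1 := I.tx
  have h2 := I.t3
  obtain ⟨X, rfl⟩ : ∃ X, x = X + 2 := ⟨x - 2, by omega⟩
  have hx1 : X + 2 - 1 = X + 1 := by omega
  rw [hx1] at e2
  rw [Nat.add_sub_cancel] at e1
  set A := ∑ z, e z
  set S := SS H e a
  set T := TT H e b
  have ha := I.e_pos a
  have hb := I.e_pos b
  -- A (2 e a - e b) = e a e b + e a T + e b S
  have key : A * (2 * e a) = A * e b + e a * e b + e a * T + e b * S := by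
    have h3 : e a * (2 * A) = e a * ((X + 1) * e b + T) := by rw [e2]
    have h4 : e b * (X * e a) = e b * (A + S) := by rw [e1]
    nlinarith
  by_contra hcon
  push Not at hcon
  have h5 : A * (2 * e a) ≤ A * e b := Nat.mul_le_mul_left A hcon
  have h6 : 0 < e a * e b := Nat.mul_pos ha hb
  omega

theorem IDat.nonf (a b : V) (hne : a ≠ b) (hab : ¬ H.Adj a b) :
    s * (3 * (e a * e b)) + 4 = n + 3 * t + 3 * cn H a b + s * (e a * e a) + s * (e b * e b) := by
  have h1 := I.non a b hne hab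
  have h2 := I.dg' a
  have h3 := I.dg' b
  have h4 : s * (3 * (e a * e b)) = 3 * (s * (e a * e b)) := by ring
  omega

theorem IDat.x_ge (a : V) (hmin : ∀ z, e a ≤ e z) (hnc : ∃ z, e a < e z) : n + 3 ≤ x := by
  have h1 := I.E1 a
  have h2 : n * e a < ∑ z, e z := by
    rw [← I.card, ← card_univ, ← smul_eq_mul, ← sum_const]
    obtain ⟨z, hz⟩ := hnc
    exact sum_lt_sum (fun z _ => hmin z) ⟨z, mem_univ z, hz⟩
  have h3 : (n + 2) * e a < x * e a := by
    have : (n + 2) * e a = n * e a + 2 * e a := by ring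
    omega
  have := Nat.lt_of_mul_lt_mul_right h3
  omega

theorem IDat.c1 (a b : V) (hmin : ∀ z, e a ≤ e z) (hmax : ∀ z, e z ≤ e b) (hab : e a < e b) :
    3 * x + n + 2 ≤ s * (e a * e a + (e a * e b + e b * e b)) + 3 * t := by
  have h1 := I.sum_S a
  have h2 := I.sum_S b
  have h3 : dg H a * e a ≤ SS H e a := by
    unfold dg SS
    rw [← smul_eq_mul, ← sum_const]
    exact sum_le_sum (fun z _ => hmin z)
  have h4 : SS H e b ≤ dg H b * e b := by
    unfold dg SS
    rw [← smul_eq_mul, ← sum_const]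
    exact sum_le_sum (fun z _ => hmax z)
  have h5 := I.dg' a
  have h6 := I.dg' b
  have h7 := I.tx
  have h8 := I.t3
  obtain ⟨X, rfl⟩ : ∃ X, x = X + 2 := ⟨x - 2, by omega⟩
  rw [Nat.add_sub_cancel] at h1 h2
  -- (X - dg b) e b ≤ (X - dg a) e a
  have h9 : (X : ℤ) * e b - dg H b * e b ≤ X * e a - dg H a * e a := by
    have i1 : (X : ℤ) * e a = ∑ z, (e z : ℤ) + SS H e a := by exact_mod_cast h1
    have i2 : (X : ℤ) * e b = ∑ z, (e z : ℤ) + SS H e b := by exact_mod_cast h2
    have i3 : (dg H a : ℤ) * e a ≤ SS H e a := by exact_mod_cast h3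
    have i4 : (SS H e b : ℤ) ≤ dg H b * e b := by exact_mod_cast h4
    linarith
  have i5 : (s : ℤ) * (e a * e a) + 3 * t = n + 8 + 3 * dg H a := by exact_mod_cast h5
  have i6 : (s : ℤ) * (e b * e b) + 3 * t = n + 8 + 3 * dg H b := by exact_mod_cast h6
  have i7 : (0 : ℤ) < e b - e a := by
    have : (e a : ℤ) < e b := by exact_mod_cast hab
    linarith
  have i8 : ((3 * (X + 2) + n + 2 - 3 * t : ℤ)) * (e b - e a) ≤
      (s * (e a * e a + (e a * e b + e b * e b))) * (e b - e a) := by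
    have j1 : 3 * (dg H a : ℤ) = s * (e a * e a) + 3 * t - n - 8 := by linarith
    have j2 : 3 * (dg H b : ℤ) = s * (e b * e b) + 3 * t - n - 8 := by linarith
    have j3 : 3 * ((X : ℤ) * e b) - (3 * dg H b) * e b ≤
        3 * (X * e a) - (3 * dg H a) * e a := by linarith
    rw [j1, j2] at j3
    nlinarith
  have i9 := le_of_mul_le_mul_right i8 i7
  have : ((3 * (X + 2) + n + 2 : ℕ) : ℤ) ≤
      ((s * (e a * e a + (e a * e b + e b * e b)) + 3 * t : ℕ) : ℤ) := by
    push_cast
    linarith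
  exact_mod_cast this

theorem IDat.cs (a : V) : CS n x s (x * (x - t)) (∑ z, e z) (e a) (dg H a) (hn H a) := by
  have hS := I.sum_S a
  have hT := I.sum_T a
  have hQ := I.Q_eq
  have hE := I.E2 a
  have c1 : s * (SS H e a) ^ 2 ≤ dg H a * SS H (fun z => s * e z ^ 2) a := by
    have h : (SS H e a) ^ 2 ≤ dg H a * ∑ z ∈ univ.filter (fun z => H.Adj a z), e z ^ 2 :=
      sq_sum_le_card_mul_sum_sq
    calc s * (SS H e a) ^ 2 ≤ s * (dg H a * ∑ z ∈ univ.filter (fun z => H.Adj a z), e z ^ 2) :=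
          Nat.mul_le_mul_left s h
      _ = dg H a * SS H (fun z => s * e z ^ 2) a := by
          unfold SS; rw [← mul_sum]; ring
  have c2 : s * (TT H e a) ^ 2 ≤ hn H a * TT H (fun z => s * e z ^ 2) a := by
    have h : (TT H e a) ^ 2 ≤
        hn H a * ∑ z ∈ univ.filter (fun z => z ≠ a ∧ ¬ H.Adj a z), e z ^ 2 :=
      sq_sum_le_card_mul_sum_sq
    calc s * (TT H e a) ^ 2 ≤
          s * (hn H a * ∑ z ∈ univ.filter (fun z => z ≠ a ∧ ¬ H.Adj a z), e z ^ 2) :=
          Nat.mul_le_mul_left s h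
      _ = hn H a * TT H (fun z => s * e z ^ 2) a := by
          unfold TT; rw [← mul_sum]; ring
  have hsp : ∑ z, s * e z ^ 2 = s * e a ^ 2 + SS H (fun z => s * e z ^ 2) a
      + TT H (fun z => s * e z ^ 2) a := split_sum (H := H) (fun z => s * e z ^ 2) a
  have hS2 : ∑ z ∈ univ.filter (fun z => H.Adj a z), s * e z ^ 2 =
      SS H (fun z => s * e z ^ 2) a := rfl
  rw [hS2, ← hQ] at hE
  rw [← hQ] at hsp
  have hpow : s * e a ^ 2 = s * (e a * e a) := by rw [pow_two]
  rw [hpow] at hE hsp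
  set A := ∑ z, e z
  set S1 := SS H e a
  set T1 := TT H e a
  set S2 := SS H (fun z => s * e z ^ 2) a
  set T2 := TT H (fun z => s * e z ^ 2) a
  set Q := x * (x - t)
  set d := dg H a
  set h := hn H a
  have r1 : (x - 2) * e a - A = S1 := by omega
  have r2 : 2 * A - (x - 1) * e a = T1 := by omega
  unfold CS
  rw [r1, r2]
  set K := Q + n * (2 * n - 2) + 2 * (s * (e a * e a) + (2 * n - 2)) + (2 * n - 2) * d with hK
  have hEK : 3 * (s * (A * e a)) = K + S2 := by rw [hE, hK]; ring
  rw [hEK]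
  constructor
  · calc s * S1 ^ 2 + d * K ≤ d * S2 + d * K := Nat.add_le_add_right c1 _
      _ = (K + S2) * d := by ring
  · calc s * T1 ^ 2 + (K + S2) * h + h * (s * (e a * e a))
        ≤ h * T2 + (K + S2) * h + h * (s * (e a * e a)) := by
          exact Nat.add_le_add_right (Nat.add_le_add_right c2 _) _
      _ = h * ((s * (e a * e a) + S2 + T2) + K) := by ring
      _ = h * (Q + K) := by rw [← hsp]

theorem IDat.W_clq : Clq H (univ.filter (fun z => n + 3 * t + 32 < s * (e z * e z))) := by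
  -- a pair with e a ≤ e b, nonadjacent, forces s e a^2 ≤ n + 3 t + 32
  have key : ∀ a b, a ≠ b → ¬ H.Adj a b → e a ≤ e b → s * (e a * e a) ≤ n + 3 * t + 32 := by
    intro a b hne hab hle
    have h1 := I.nonf a b hne hab
    have h2 := I.mu a b hne hab
    have h3 := I.lt2 a b
    have h4 : s * (e a * e a) + (s * (e a * e a) + s * (e b * e b)) ≤ s * (3 * (e a * e b)) := by
      rw [← Nat.mul_add, ← Nat.mul_add]
      apply Nat.mul_le_mul_left
      obtain ⟨d, hd⟩ := Nat.exists_eq_add_of_le hle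
      obtain ⟨f, hf⟩ := Nat.exists_eq_add_of_lt h3
      rw [hd] at hf ⊢
      have : e a = d + f + 1 := by omega
      nlinarith
    omega
  intro a ha b hb hne
  simp only [mem_filter, mem_univ, true_and] at ha hb
  by_contra hab
  rcases le_total (e a) (e b) with h | h
  · have := key a b hne hab h; omega
  · have := key b a hne.symm (fun h' => hab h'.symm) h; omega

theorem IDat.mod3 (a b : V) : (s * (e a * e a)) % 3 = (s * (e b * e b)) % 3 := by
  have h1 := I.dg' a
  have h2 := I.dg' b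
  omega

theorem IDat.Qmod : (x * (x - t)) % 3 = (n * (n + 8)) % 3 := by
  rw [I.Q_eq]
  have h : ∑ z, (s * e z ^ 2 + 3 * t) = ∑ z, ((n + 8) + 3 * dg H z) :=
    sum_congr rfl (fun z _ => I.diag z)
  have h3 : ∑ z, 3 * dg H z = 3 * ∑ z, dg H z := by rw [mul_sum]
  rw [sum_add_distrib, sum_add_distrib, sum_const, sum_const, card_univ, I.card, h3,
    smul_eq_mul, smul_eq_mul] at h
  have h2 : n * (3 * t) = 3 * (n * t) := by ring
  omega

theorem IDat.Qs : s ∣ x * (x - t) := by
  rw [I.Q_eq, ← mul_sum]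
  exact Dvd.intro _ rfl

theorem IDat.par : (∑ z, e z) % 2 = (x * (x - t) / s) % 2 := by
  rw [I.Q_eq, ← mul_sum, Nat.mul_div_cancel_left _ I.spos]
  have h : ∀ k : ℕ, k % 2 = (k ^ 2) % 2 := by
    intro k
    rw [Nat.pow_mod]
    rcases Nat.mod_two_eq_zero_or_one k with h | h <;> rw [h]
  rw [Finset.sum_nat_mod, Finset.sum_nat_mod univ 2 (fun z => e z ^ 2)]
  simp_rw [← h]

end

end Pool.Agent.Helper18_TDE
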