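import Mathlib

/-!
# Graphs with three distance eigenvalues, the least of them `-3`: definitions and module statements

`G` is a connected graph, `H` its complement. `gm H` is the matrix `D + 3 I` when `G` has
diameter two. `Dat` collects the spectral information, `IDat` its arithmetical consequences.
-/

set_option autoImplicit false
open Finset

universe u

namespace Pool.Agent.Helper18_TDE

/-- The distance matrix of a graph. -/
noncomputable def distMatrix {V : Type u} (G : SimpleGraph V) : Matrix V V ℝ :=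
  Matrix.of fun a b => (G.dist a b : ℝ)

section
variable {V : Type u} [Fintype V] [DecidableEq V]

/-- The matrix with diagonal `3`, entry `2` for `H`-adjacent and `1` for other pairs. -/
def gm (H : SimpleGraph V) [DecidableRel H.Adj] (a b : V) : ℝ :=
  if a = b then 3 else if H.Adj a b then 2 else 1

/-- degree in `H` -/
def dg (H : SimpleGraph V) [DecidableRel H.Adj] (a : V) : ℕ := (univ.filter fun z => H.Adj a z).card

/-- number of common neighbours in `H` -/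
def cn (H : SimpleGraph V) [DecidableRel H.Adj] (a b : V) : ℕ :=
  (univ.filter fun z => H.Adj a z ∧ H.Adj b z).card

/-- Spectral data: `M = gm H` has the eigenvalues `x > θ > 0` and `0`, `x` simple with positive
eigenvector, `M² = θ M + v vᵀ`, rank `m + 1`, `M` is the Gram matrix of the vectors `(y i a)_i`. -/
structure Dat (H : SimpleGraph V) [DecidableRel H.Adj] (m : ℕ) (x θ : ℝ) (v : V → ℝ)
    (y : Fin (m + 1) → V → ℝ) : Prop where
  θ_pos : 0 < θ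
  θ_lt : θ < x
  v_pos : ∀ a, 0 < v a
  gram : ∀ a b, ∑ i, y i a * y i b = gm H a b
  sq : ∀ a b, ∑ z, gm H a z * gm H z b = θ * gm H a b + v a * v b
  eig : ∀ a, ∑ z, gm H a z * v z = x * v a
  norm : ∑ z, v z ^ 2 = x * (x - θ)
  tr : 3 * (Fintype.card V : ℝ) = x + m * θ

/-- `W` is a clique of `H`. -/
def Clq (H : SimpleGraph V) (W : Finset V) : Prop := ∀ a ∈ W, ∀ b ∈ W, a ≠ b → H.Adj a b

/-- Arithmetical data (all numbers natural, `v a = √s * e a`). -/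
structure IDat (H : SimpleGraph V) [DecidableRel H.Adj] (n m t x s : ℕ) (e : V → ℕ) : Prop where
  card : Fintype.card V = n
  sqf : Squarefree s
  e_pos : ∀ a, 0 < e a
  t3 : 3 ≤ t
  tx : t < x
  tr : 3 * n = x + m * t
  diag : ∀ a, s * e a ^ 2 + 3 * t = n + 8 + 3 * dg H a
  adj : ∀ a b, H.Adj a b → s * (e a * e b) + 2 * t = n + 8 + dg H a + dg H b + cn H a b
  non : ∀ a b, a ≠ b → ¬ H.Adj a b → s * (e a * e b) + t = n + 4 + dg H a + dg H b + cn H a b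
  E1 : ∀ a, ∑ z, e z + 2 * e a + ∑ z ∈ univ.filter (fun z => H.Adj a z), e z = x * e a
  E2 : ∀ a, 3 * (s * ((∑ z, e z) * e a)) = ∑ z, s * e z ^ 2 + n * (2 * n - 2)
      + 2 * (s * e a ^ 2 + (2 * n - 2)) + ∑ z ∈ univ.filter (fun z => H.Adj a z), s * e z ^ 2
      + (2 * n - 2) * dg H a
  norm : ∑ z, s * e z ^ 2 + x * t = x * x
  nb : ∀ a, ∃ b, b ≠ a ∧ ¬ H.Adj a b
  mu : ∀ a b, a ≠ b → ¬ H.Adj a b → cn H a b ≤ 12
  clq : ∀ W : Finset V, Clq H W → W.card ≤ m + 1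
  had : 2 * (n - 1) ≤ (m + 1) * (m + 2)
  psd : ∀ W : Finset V, Clq H W →
    s * (∑ z ∈ W, e z) ^ 2 + (2 * W.card ^ 2 + W.card) * t ≤ (2 * W.card ^ 2 + W.card) * x

end

/-! ## Module statements -/

/-- Module SPEC. -/
def SpecStmt : Prop := ∀ (V : Type u) [Fintype V] [DecidableEq V] (G : SimpleGraph V)
    [DecidableRel G.Adj], G.Connected → (spectrum ℝ (distMatrix G)).ncard = 3 →
    IsLeast (spectrum ℝ (distMatrix G)) (-3) →
    G ≠ ⊤ ∧ (∀ a b, a ≠ b → ¬ G.Adj a b → G.dist a b = 2) ∧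
    (∃ z : V → ℝ, z ≠ 0 ∧ ∀ a, ∑ b, gm Gᶜ a b * z b = 0) ∧
    ∃ (m : ℕ) (x θ : ℝ) (v : V → ℝ) (y : Fin (m + 1) → V → ℝ), Dat Gᶜ m x θ v y

/-- Module INTG. -/
def IntgStmt : Prop := ∀ (V : Type u) [Fintype V] [DecidableEq V] (H : SimpleGraph V)
    [DecidableRel H.Adj] (m : ℕ) (x θ : ℝ) (v : V → ℝ) (y : Fin (m + 1) → V → ℝ),
    Dat H m x θ v y → (∃ a b, H.Adj a b) → (∃ a b, a ≠ b ∧ ¬ H.Adj a b) →
    ∃ t x' : ℕ, θ = t ∧ x = x' ∧ 2 ≤ m

/-- Module VAL. -/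
def ValStmt : Prop := ∀ (V : Type u) [Fintype V] [DecidableEq V] (H : SimpleGraph V)
    [DecidableRel H.Adj] (m t x : ℕ) (v : V → ℝ) (y : Fin (m + 1) → V → ℝ),
    Dat H m x t v y → ∃ (s : ℕ) (e : V → ℕ), Squarefree s ∧ (∀ a, 0 < e a) ∧
      ∀ a, v a = Real.sqrt s * e a

/-- Module MU. -/
def MuStmt : Prop := ∀ (V : Type u) [Fintype V] [DecidableEq V] (H : SimpleGraph V)
    [DecidableRel H.Adj] (m : ℕ) (y : Fin (m + 1) → V → ℝ),
    (∀ a b, ∑ i, y i a * y i b = gm H a b) → ∀ a b c : V, a ≠ b → ¬ H.Adj a b → c ≠ b →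
    H.Adj c a → ¬ H.Adj c b → cn H a b ≤ 12

/-- Module RANK. -/
def RankStmt : Prop := ∀ (V : Type u) [Fintype V] [DecidableEq V] (H : SimpleGraph V)
    [DecidableRel H.Adj] (m : ℕ) (y : Fin (m + 1) → V → ℝ),
    (∀ a b, ∑ i, y i a * y i b = gm H a b) →
    (∀ W : Finset V, Clq H W → W.card ≤ m + 1) ∧
    2 * (Fintype.card V - 1) ≤ (m + 1) * (m + 2)

/-- Module REG: the key theorem, `v` is constant. -/
def RegStmt : Prop := ∀ (V : Type u) [Fintype V] [DecidableEq V] (H : SimpleGraph V)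
    [DecidableRel H.Adj] (m : ℕ) (x θ : ℝ) (v : V → ℝ) (y : Fin (m + 1) → V → ℝ),
    Hᶜ.Connected → Dat H m x θ v y → ∀ a b, v a = v b

/-- Module CONST: arithmetical core. -/
def ConstStmt : Prop := ∀ (V : Type u) [Fintype V] [DecidableEq V] (H : SimpleGraph V)
    [DecidableRel H.Adj] (n m t x s : ℕ) (e : V → ℕ), IDat H n m t x s e → ∀ a b, e a = e b

/-- Module SRG (from `v` constant to strongly regular with second eigenvalue 1). -/
def SrgStmt : Prop := ∀ (V : Type u) [Fintype V] [DecidableEq V] (G : SimpleGraph V)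
    [DecidableRel G.Adj] (m : ℕ) (x θ : ℝ) (v : V → ℝ) (y : Fin (m + 1) → V → ℝ),
    G.Connected → G ≠ ⊤ → Dat Gᶜ m x θ v y → (∀ a b, v a = v b) →
    (∃ z : V → ℝ, z ≠ 0 ∧ ∀ a, ∑ b, gm Gᶜ a b * z b = 0) →
    ∃ k ℓ μ : ℕ, G.IsSRGWith (Fintype.card V) k ℓ μ ∧
      IsGreatest (spectrum ℝ (G.adjMatrix ℝ) \ {(k : ℝ)}) 1

/-- Module CONV (the known direction). -/
def ConvStmt : Prop := ∀ (V : Type u) [Fintype V] [DecidableEq V] (G : SimpleGraph V)
    [DecidableRel G.Adj] (k ℓ μ : ℕ), G.Connected → G ≠ ⊤ →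
    G.IsSRGWith (Fintype.card V) k ℓ μ →
    IsGreatest (spectrum ℝ (G.adjMatrix ℝ) \ {(k : ℝ)}) 1 →
    (spectrum ℝ (distMatrix G)).ncard = 3 ∧ IsLeast (spectrum ℝ (distMatrix G)) (-3)

/-- Real-valued consequences used for large `n` (`v a = √s * e a`). -/
structure PDat {V : Type u} [Fintype V] [DecidableEq V] (H : SimpleGraph V) [DecidableRel H.Adj]
    (n m t x : ℕ) (v : V → ℝ) : Prop where
  card : Fintype.card V = n
  v_pos : ∀ a, 0 < v a
  t3 : 3 ≤ t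
  tr : 3 * n = x + m * t
  x_ge : n + 3 ≤ x
  lt2 : ∀ a b, v b < 2 * v a
  non : ∀ a b, a ≠ b → ¬ H.Adj a b →
    (n : ℝ) + 3 * t - 4 ≤ 3 * v a * v b - v a ^ 2 - v b ^ 2 ∧
    3 * v a * v b - v a ^ 2 - v b ^ 2 ≤ (n : ℝ) + 3 * t + 32
  diag : ∀ a, v a ^ 2 = (n : ℝ) + 8 - 3 * t + 3 * dg H a
  dg_le : ∀ a, dg H a + 2 ≤ n
  nb : ∀ a, ∃ b, b ≠ a ∧ ¬ H.Adj a b
  c1 : ∀ a b, (∀ z, v a ≤ v z) → (∀ z, v z ≤ v b) → v a < v b →
    3 * ((x : ℝ) - t) + n + 2 ≤ v a ^ 2 + v a * v b + v b ^ 2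
  norm : ∑ z, v z ^ 2 = (x : ℝ) * (x - t)
  clq : ∀ W : Finset V, Clq H W → W.card ≤ m + 1
  had : 2 * (n - 1) ≤ (m + 1) * (m + 2)
  psd : ∀ W : Finset V, Clq H W →
    (∑ z ∈ W, v z) ^ 2 ≤ (2 * (W.card : ℝ) ^ 2 + W.card) * ((x : ℝ) - t)

/-- Module BIG. -/
def BigStmt : Prop := ∀ (V : Type u) [Fintype V] [DecidableEq V] (H : SimpleGraph V)
    [DecidableRel H.Adj] (n m t x : ℕ) (v : V → ℝ), PDat H n m t x v → 1000 ≤ n →
    ∀ a b, v a = v b

/-- Cauchy-Schwarz conditions at a vertex of value `a`, degree `d`, `h` other vertices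
(`S₁ = (x-2)a - A` is the sum of the values over the neighbours, `T₁ = 2A - (x-1)a` over the
non-neighbours; `K` and `E` come from `E2`). -/
def CS (n x s Q A a d h : ℕ) : Prop :=
  s * ((x - 2) * a - A) ^ 2 + d * (Q + n * (2 * n - 2) + 2 * (s * (a * a) + (2 * n - 2))
      + (2 * n - 2) * d) ≤ 3 * (s * (A * a)) * d ∧
  s * (2 * A - (x - 1) * a) ^ 2 + 3 * (s * (A * a)) * h + h * (s * (a * a)) ≤
    h * (Q + (Q + n * (2 * n - 2) + 2 * (s * (a * a) + (2 * n - 2)) + (2 * n - 2) * d))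

/-- Case B: `r` is the largest value, `p` the smallest value of an `H`-non-neighbour of a vertex
of value `r`, and `s r² > n + 3t + 32`; `A` is the sum of all values. -/
structure FB (n m t x s p r mu da db hb A : ℕ) : Prop where
  n_lt : n < 1000
  t3 : 3 ≤ t
  mu_le : mu ≤ 12
  hK : s * (3 * (p * r)) + 4 = n + 3 * t + 3 * mu + s * (p * p) + s * (r * r)
  pr : p < r
  r2 : r < 2 * p
  sqf : Squarefree s
  high : n + 3 * t + 32 < s * (r * r)
  hda : s * (p * p) + 3 * t = n + 8 + 3 * da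
  hdb : s * (r * r) + 3 * t = n + 8 + 3 * db
  hhb : db + 1 + hb = n
  hb_pos : 1 ≤ hb
  da_lt : da + 2 ≤ n
  priv : s * ((r - p) * (2 * p - r)) + 12 ≤ 6 * t
  tr : 3 * n = x + m * t
  x_ge : n + 3 ≤ x
  had : 2 * (n - 1) ≤ (m + 1) * (m + 2)
  P1 : s * (r * r) + 3 * t ≤ 3 * x
  C1 : 3 * x + n + 2 ≤ s * (p * p + (p * r + r * r)) + 3 * t
  Qmod : (x * (x - t)) % 3 = (n * (n + 8)) % 3
  Qs : s ∣ x * (x - t)
  clq : ∀ L, (∀ c, s * (c * c) ≤ n + 3 * t + 32 → (s * (c * c)) % 3 = (s * (p * p)) % 3 → c ≤ L) →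
    x * (x - t) ≤ min (m + 1) n * (s * (r * r)) + (n - min (m + 1) n) * (s * (L * L))
  T1lo : (x - 1) * r + p * hb ≤ 2 * A
  T1hi : ∀ L, (∀ c, p ≤ c → c < r → s * (c * c) ≤ n + 3 * t + 32 →
      (s * (c * c)) % 3 = (s * (p * p)) % 3 →
      s * (3 * (c * r)) ≤ n + 3 * t + 32 + s * (c * c) + s * (r * r) → c ≤ L) →
    2 * A ≤ (x - 1) * r + L * hb
  S1b : (x - 2) * r ≤ A + db * r
  S1w : A ≤ (x - 2) * p
  S1w' : (x - 2) * p ≤ A + da * r
  par : A % 2 = (x * (x - t) / s) % 2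
  CSb : CS n x s (x * (x - t)) A r db hb
  CSw : CS n x s (x * (x - t)) A p da (n - 1 - da)

/-- Module FINB (finite check, case B). -/
def FinBStmt : Prop := ∀ n m t x s p r mu da db hb A : ℕ, ¬ FB n m t x s p r mu da db hb A

/-- Case A: `p` smallest value, `r` largest value, `s r² ≤ n + 3t + 32`. -/
structure FA (n m t x s p r c dp dr A : ℕ) : Prop where
  n_lt : n < 1000
  t3 : 3 ≤ t
  pr : p < r
  r2 : r < 2 * p
  sqf : Squarefree s
  low : s * (r * r) ≤ n + 3 * t + 32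
  pc : p ≤ c
  cr : c ≤ r
  hc : n + 3 * t + s * (p * p) + s * (c * c) ≤ s * (3 * (p * c)) + 4
  hdp : s * (p * p) + 3 * t = n + 8 + 3 * dp
  hdr : s * (r * r) + 3 * t = n + 8 + 3 * dr
  dr_lt : dr + 2 ≤ n
  tr : 3 * n = x + m * t
  x_ge : n + 3 ≤ x
  had : 2 * (n - 1) ≤ (m + 1) * (m + 2)
  C1 : 3 * x + n + 2 ≤ s * (p * p + (p * r + r * r)) + 3 * t
  Qmod : (x * (x - t)) % 3 = (n * (n + 8)) % 3
  Qs : s ∣ x * (x - t)
  Qlo : n * (s * (p * p)) < x * (x - t)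
  Qhi : x * (x - t) < n * (s * (r * r))
  S1p : (x - 2) * p ≤ A + dp * r
  S1p' : A + dp * p ≤ (x - 2) * p
  S1r : (x - 2) * r ≤ A + dr * r
  S1r' : A + dr * p ≤ (x - 2) * r
  T1p : 2 * A ≤ (x - 1) * p + (n - 1 - dp) * r
  T1p' : (x - 1) * p + (n - 1 - dp) * p ≤ 2 * A
  T1r : 2 * A ≤ (x - 1) * r + (n - 1 - dr) * r
  T1r' : (x - 1) * r + (n - 1 - dr) * p ≤ 2 * A
  A2 : s * (A * A) ≤ n * (x * (x - t))
  par : A % 2 = (x * (x - t) / s) % 2
  CSr : CS n x s (x * (x - t)) A r dr (n - 1 - dr)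
  CSp : CS n x s (x * (x - t)) A p dp (n - 1 - dp)

/-- Module FINA (finite check, case A). -/
def FinAStmt : Prop := ∀ n m t x s p r c dp dr A : ℕ, ¬ FA n m t x s p r c dp dr A

end Pool.Agent.Helper18_TDE
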