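import Pool.Agent.Helper18_TDE.Basic

/-!
# From the spectral data to the arithmetical data
-/

set_option autoImplicit false
open Finset

universe u

namespace Pool.Agent.Helper18_TDE

variable {V : Type u} [Fintype V] [DecidableEq V] {H : SimpleGraph V} [DecidableRel H.Adj]
variable {m : ℕ} {x θ : ℝ} {v : V → ℝ} {y : Fin (m + 1) → V → ℝ}

/-- `v b < 2 v a` for all `a`, `b`. -/
theorem Dat.lt2 (D : Dat H m x θ v y) (a b : V) : v b < 2 * v a := by
  set V1 : ℝ := ∑ z, v z with hV1
  have hV1pos : 0 < V1 := sum_pos (fun z _ => D.v_pos z) ⟨a, mem_univ a⟩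
  have e1 := D.E1 a
  have e2 := D.E1 b
  rw [← hV1] at e1 e2
  -- sum over the non neighbours of b
  have hsplit : ∑ z ∈ univ.filter (fun z => H.Adj b z), v z
      + ∑ z ∈ univ.filter (fun z => ¬ H.Adj b z), v z = V1 :=
    sum_filter_add_sum_filter_not univ (fun z => H.Adj b z) v
  have hmem : b ∈ univ.filter (fun z => ¬ H.Adj b z) := by simp
  have hT : v b ≤ ∑ z ∈ univ.filter (fun z => ¬ H.Adj b z), v z :=
    single_le_sum (f := v) (fun z _ => le_of_lt (D.v_pos z)) hmem
  have hS : 0 ≤ ∑ z ∈ univ.filter (fun z => H.Adj a z), v z :=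
    sum_nonneg (fun z _ => le_of_lt (D.v_pos z))
  set S := ∑ z ∈ univ.filter (fun z => H.Adj a z), v z
  set T := ∑ z ∈ univ.filter (fun z => ¬ H.Adj b z), v z
  set Sb := ∑ z ∈ univ.filter (fun z => H.Adj b z), v z
  have ha := D.v_pos a
  have hb := D.v_pos b
  -- V1 (2 v a - v b) = v a v b + v a (T - v b) + v b S
  have key : V1 * (2 * v a - v b) = v a * v b + v a * (T - v b) + v b * S := by
    have h1 : v b * (V1 + 2 * v a + S) = v b * (x * v a) := by rw [e1]
    have h2 : v a * (V1 + 2 * v b + Sb) = v a * (x * v b) := by rw [e2]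
    have h3 : Sb = V1 - T := by linarith
    rw [h3] at h2
    linarith
  by_contra hcon
  push Not at hcon
  have h4 : V1 * (2 * v a - v b) ≤ 0 :=
    mul_nonpos_of_nonneg_of_nonpos (le_of_lt hV1pos) (by linarith)
  have h5 : 0 < v a * v b := mul_pos ha hb
  have h6 : 0 ≤ v a * (T - v b) := mul_nonneg (le_of_lt ha) (by linarith)
  have h7 : 0 ≤ v b * S := mul_nonneg (le_of_lt hb) hS
  linarith

/-- For nonadjacent vertices `3 (dg a - cn a b) = (v a - v b) (2 v a - v b) + 6 θ - 12`. -/
theorem Dat.nonrel (D : Dat H m x θ v y) (a b : V) (hne : a ≠ b) (hab : ¬ H.Adj a b) :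
    0 ≤ (v a - v b) * (2 * v a - v b) + 6 * θ - 12 := by
  have h1 := D.diag a
  have h2 := D.diag b
  have h3 := D.non a b hne hab
  have h4 : (cn H a b : ℝ) ≤ dg H a := by exact_mod_cast cn_le H a b
  nlinarith

theorem idat_of (hMU : MuStmt.{u}) (hRANK : RankStmt.{u}) {t x' s : ℕ} {e : V → ℕ}
    (D : Dat H m (x' : ℝ) (t : ℝ) v y) (ht : 3 ≤ t) (hs : Squarefree s) (he : ∀ a, 0 < e a)
    (hv : ∀ a, v a = Real.sqrt s * e a) (hnb : ∀ a, ∃ b, b ≠ a ∧ ¬ H.Adj a b) :
    IDat H (Fintype.card V) m t x' s e := by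
  have hspos : (0 : ℝ) < s := by
    have := Nat.pos_of_ne_zero hs.ne_zero
    exact_mod_cast this
  have hsq : Real.sqrt s * Real.sqrt s = s := Real.mul_self_sqrt (le_of_lt hspos)
  have hsqp : 0 < Real.sqrt s := Real.sqrt_pos.2 hspos
  have hvv : ∀ a b, v a * v b = s * (e a * e b) := by
    intro a b
    rw [hv a, hv b]
    calc Real.sqrt s * (e a : ℝ) * (Real.sqrt s * e b)
        = (Real.sqrt s * Real.sqrt s) * (e a * e b) := by ring
      _ = s * (e a * e b) := by rw [hsq]
  have hv2 : ∀ a, v a ^ 2 = s * (e a : ℝ) ^ 2 := by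
    intro a
    rw [pow_two, hvv a a]; ring
  have tx : t < x' := by exact_mod_cast D.θ_lt
  have htr : 3 * Fintype.card V = x' + m * t := by exact_mod_cast D.tr
  obtain ⟨hclq, hhad⟩ := hRANK V H m y D.gram
  have hdiag : ∀ a, s * e a ^ 2 + 3 * t = Fintype.card V + 8 + 3 * dg H a := by
    intro a
    have h := D.diag a
    rw [hv2 a] at h
    exact_mod_cast h
  have hnon : ∀ a b, a ≠ b → ¬ H.Adj a b →
      s * (e a * e b) + t = Fintype.card V + 4 + dg H a + dg H b + cn H a b := by
    intro a b h1 h2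
    have h := D.non a b h1 h2
    rw [hvv a b] at h
    exact_mod_cast h
  refine ⟨rfl, hs, he, ht, tx, htr, hdiag, ?_, hnon, ?_, ?_, ?_, hnb, ?_, hclq, hhad, ?_⟩
  · intro a b hab
    have h := D.adj a b hab
    rw [hvv a b] at h
    exact_mod_cast h
  · intro a
    have h := D.E1 a
    simp_rw [hv, ← mul_sum] at h
    have h2 : Real.sqrt s * (∑ z, (e z : ℝ) + 2 * e a +
        ∑ z ∈ univ.filter (fun z => H.Adj a z), (e z : ℝ)) = Real.sqrt s * (x' * e a) := by
      linarith
    have h3 := mul_left_cancel₀ hsqp.ne' h2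
    exact_mod_cast h3
  · intro a
    have h := D.E2 a
    have h1 : (∑ z, v z) * v a = s * ((∑ z, (e z : ℝ)) * e a) := by
      rw [sum_mul, sum_mul, mul_sum]
      exact sum_congr rfl (fun z _ => hvv z a)
    rw [h1] at h
    simp_rw [hv2] at h
    have hn1 : 1 ≤ Fintype.card V := Fintype.card_pos_iff.2 ⟨a⟩
    have hn2 : ((2 * Fintype.card V - 2 : ℕ) : ℝ) = 2 * (Fintype.card V : ℝ) - 2 := by
      rw [Nat.cast_sub (by omega)]; push_cast; ring
    have : ((3 * (s * ((∑ z, e z) * e a)) : ℕ) : ℝ) = ((∑ z, s * e z ^ 2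
      + Fintype.card V * (2 * Fintype.card V - 2)
      + 2 * (s * e a ^ 2 + (2 * Fintype.card V - 2))
      + ∑ z ∈ univ.filter (fun z => H.Adj a z), s * e z ^ 2
      + (2 * Fintype.card V - 2) * dg H a : ℕ) : ℝ) := by
      push_cast [hn2]
      linarith
    exact_mod_cast this
  · have h := D.norm
    simp_rw [hv2] at h
    have : ((∑ z, s * e z ^ 2 + x' * t : ℕ) : ℝ) = ((x' * x' : ℕ) : ℝ) := by
      push_cast
      rw [h]; ring
    exact_mod_cast this
  · intro a b hne hab
    -- a vertex adjacent to exactly one of a, b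
    have hex : ∃ c, ¬ (H.Adj a c ↔ H.Adj b c) := by
      by_contra hcon
      push Not at hcon
      have h1 : cn H a b = dg H a := by
        unfold cn dg; congr 1; ext z
        simp only [mem_filter, mem_univ, true_and]
        constructor
        · exact fun h => h.1
        · exact fun h => ⟨h, (hcon z).1 h⟩
      have h2 : cn H a b = dg H b := by
        unfold cn dg; congr 1; ext z
        simp only [mem_filter, mem_univ, true_and]
        constructor
        · exact fun h => h.2
        · exact fun h => ⟨(hcon z).2 h, h⟩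
      have h3 := D.diag a
      have h4 := D.diag b
      have h5 := D.non a b hne hab
      have h6 : (dg H a : ℝ) = cn H a b := by exact_mod_cast h1.symm
      have h7 : (dg H b : ℝ) = cn H a b := by exact_mod_cast h2.symm
      have h8 : (3 : ℝ) ≤ t := by exact_mod_cast ht
      nlinarith [sq_nonneg (v a - v b)]
    obtain ⟨c, hc⟩ := hex
    by_cases h1 : H.Adj a c
    · have h2 : ¬ H.Adj b c := fun h => hc ⟨fun _ => h, fun _ => h1⟩
      have h3 : c ≠ b := fun h => hab (h ▸ h1)
      exact hMU V H m y D.gram a b c hne hab h3 h1.symm (fun h => h2 h.symm)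
    · have h2 : H.Adj b c := by
        by_contra h
        exact hc ⟨fun h' => absurd h' h1, fun h' => absurd h' h⟩
      have h3 : c ≠ a := fun h => hab ((h ▸ h2 : H.Adj b a).symm)
      rw [cn_symm]
      exact hMU V H m y D.gram b a c hne.symm (fun h => hab h.symm) h3 h2.symm
        (fun h => h1 h.symm)
  · intro W hW
    have h := D.psd W hW
    simp_rw [hv, ← mul_sum, mul_pow] at h
    rw [pow_two, hsq] at h
    have : ((s * (∑ z ∈ W, e z) ^ 2 + (2 * W.card ^ 2 + W.card) * t : ℕ) : ℝ)
        ≤ (((2 * W.card ^ 2 + W.card) * x' : ℕ) : ℝ) := by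
      push_cast
      linarith
    exact_mod_cast this

end Pool.Agent.Helper18_TDE
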