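import Pool.Agent.Helper18_TDE.Const
import Pool.Agent.Helper18_TDE.Idat

/-!
# Module REG: `v` is constant
-/

set_option autoImplicit false
set_option linter.unusedSectionVars false
open Finset

universe u

namespace Pool.Agent.Helper18_TDE

theorem reg_of (hI : IntgStmt.{u}) (hV : ValStmt.{u}) (hMU : MuStmt.{u}) (hR : RankStmt.{u})
    (hB : BigStmt.{u}) : RegStmt.{u} := by
  intro V _ _ H _ m x θ v y hconn D a₀ b₀
  -- every vertex has a non-neighbour in H as soon as there are two vertices
  have hnb : ∀ a b : V, a ≠ b → ∃ c, c ≠ a ∧ ¬ H.Adj a c := by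
    intro a b hab
    obtain ⟨w⟩ := hconn.preconnected a b
    cases w with
    | nil => exact absurd rfl hab
    | cons h _ =>
      rw [SimpleGraph.compl_adj] at h
      exact ⟨_, h.1.symm, h.2⟩
  by_cases hab0 : a₀ = b₀
  · rw [hab0]
  by_cases hE : ∃ a b, H.Adj a b
  · have hN : ∃ a b, a ≠ b ∧ ¬ H.Adj a b := by
      obtain ⟨c, hc1, hc2⟩ := hnb a₀ b₀ hab0
      exact ⟨a₀, c, hc1.symm, hc2⟩
    obtain ⟨t, x', rfl, rfl, hm2⟩ := hI V H m x θ v y D hE hN
    obtain ⟨s, e, hs, he, hv⟩ := hV V H m t x' v y D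
    have hnb' : ∀ a, ∃ b, b ≠ a ∧ ¬ H.Adj a b := by
      intro a
      by_cases ha : a = a₀
      · exact hnb a b₀ (by rw [ha]; exact hab0)
      · exact hnb a a₀ ha
    rcases Nat.lt_or_ge t 3 with ht | ht
    · -- t ≤ 2
      have ht0 : 0 < t := by exact_mod_cast D.θ_pos
      -- nonadjacent pairs have equal values
      have hle : ∀ a b, a ≠ b → ¬ H.Adj a b → v b ≤ v a := by
        intro a b hne hab
        have h1 := D.nonrel a b hne hab
        have h2 := D.lt2 a b
        by_contra hcon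
        push Not at hcon
        have h3 : (v a - v b) * (2 * v a - v b) < 0 :=
          mul_neg_of_neg_of_pos (by linarith) (by linarith)
        have h4 : (t : ℝ) ≤ 2 := by exact_mod_cast (by omega : t ≤ 2)
        linarith
      have heq : ∀ a b, Hᶜ.Adj a b → v a = v b := by
        intro a b hab
        rw [SimpleGraph.compl_adj] at hab
        exact le_antisymm (hle b a hab.1.symm (fun h => hab.2 h.symm)) (hle a b hab.1 hab.2)
      have hw : ∀ a b, Hᶜ.Walk a b → v a = v b := by
        intro a b w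
        induction w with
        | nil => rfl
        | cons h _ ih => exact (heq _ _ h).trans ih
      obtain ⟨w⟩ := hconn.preconnected a₀ b₀
      exact hw a₀ b₀ w
    · have I := idat_of hMU hR D ht hs he hv hnb'
      have h := const_of hB V H _ m t x' s e I a₀ b₀
      rw [hv a₀, hv b₀, h]
  · push Not at hE
    have hd : ∀ a, dg H a = 0 := by
      intro a
      unfold dg
      rw [card_eq_zero, filter_eq_empty_iff]
      intro z _
      exact hE a z
    have h1 := D.diag a₀
    have h2 := D.diag b₀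
    rw [hd] at h1 h2
    have h3 : v a₀ ^ 2 = v b₀ ^ 2 := by linarith
    have h4 := D.v_pos a₀
    have h5 := D.v_pos b₀
    exact (pow_left_inj₀ (le_of_lt h4) (le_of_lt h5) two_ne_zero).1 h3

/-- The classification, from the modules. -/
theorem result_of (hS : SpecStmt.{u}) (hI : IntgStmt.{u}) (hV : ValStmt.{u}) (hMU : MuStmt.{u})
    (hR : RankStmt.{u}) (hB : BigStmt.{u}) (hG : SrgStmt.{u}) (hC : ConvStmt.{u})
    (V : Type u) [Fintype V] [DecidableEq V] (G : SimpleGraph V) [DecidableRel G.Adj]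
    (hconn : G.Connected) :
    ((spectrum ℝ (distMatrix G)).ncard = 3 ∧ IsLeast (spectrum ℝ (distMatrix G)) (-3)) ↔
      (G ≠ ⊤ ∧ ∃ k l μ : ℕ, G.IsSRGWith (Fintype.card V) k l μ ∧
        IsGreatest (spectrum ℝ (G.adjMatrix ℝ) \ {(k : ℝ)}) 1) := by
  constructor
  · rintro ⟨h1, h2⟩
    obtain ⟨hne, _, hz, m, x, θ, v, y, D⟩ := hS V G hconn h1 h2
    refine ⟨hne, ?_⟩
    have hconn' : Gᶜᶜ.Connected := by rw [compl_compl]; exact hconn
    have hc := reg_of hI hV hMU hR hB V Gᶜ m x θ v y hconn' D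
    exact hG V G m x θ v y hconn hne D hc hz
  · rintro ⟨hne, k, l, μ, hsrg, hg⟩
    exact hC V G k l μ hconn hne hsrg hg

end Pool.Agent.Helper18_TDE
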